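import Mathlib

set_option autoImplicit false

/-!
Dyadic torsion group: balls, displacement, the contracting group.
-/

namespace Pool.Agent.MinNonFC

open Equiv

variable {Ω : Type} [AddCommGroup Ω]

/-- The subgroup of elements killed by `2 ^ n`. -/
def A (Ω : Type) [AddCommGroup Ω] (n : ℕ) : AddSubgroup Ω where
  carrier := {x | 2 ^ n • x = 0}
  zero_mem' := by simp
  add_mem' := by
    intro a b ha hb
    simp only [Set.mem_ofPred_eq] at *
    rw [smul_add, ha, hb, add_zero]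
  neg_mem' := by
    intro a ha
    simp only [Set.mem_ofPred_eq] at *
    rw [smul_neg, ha, neg_zero]

theorem mem_A {n : ℕ} {x : Ω} : x ∈ A Ω n ↔ 2 ^ n • x = 0 := Iff.rfl

/-- The group is a Pruefer 2-group. -/
structure Pruef (Ω : Type) [AddCommGroup Ω] : Prop where
  tors : ∀ x : Ω, ∃ n : ℕ, 2 ^ n • x = 0
  two : ∀ x y : Ω, 2 • x = 0 → 2 • y = 0 → x ≠ 0 → y ≠ 0 → x = y
  dv : ∀ x : Ω, ∃ y : Ω, 2 • y = x
  nt : ∃ x : Ω, x ≠ 0 ∧ 2 • x = 0

theorem A_mono {m n : ℕ} (h : m ≤ n) {x : Ω} (hx : x ∈ A Ω m) : x ∈ A Ω n := by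
  rw [mem_A] at *
  obtain ⟨k, rfl⟩ := Nat.exists_eq_add_of_le h
  rw [pow_add, mul_comm, mul_smul, hx, smul_zero]

theorem mem_A_zero {x : Ω} : x ∈ A Ω 0 ↔ x = 0 := by
  rw [mem_A]; simp

theorem mem_A_succ {n : ℕ} {x : Ω} : x ∈ A Ω (n + 1) ↔ 2 • x ∈ A Ω n := by
  rw [mem_A, mem_A, pow_succ, mul_smul]

theorem half (hΩ : Pruef Ω) {n : ℕ} {x y : Ω} (hx : x ∈ A Ω (n + 1)) (hy : y ∈ A Ω (n + 1))
    (hx' : x ∉ A Ω n) (hy' : y ∉ A Ω n) : x - y ∈ A Ω n := by
  rw [mem_A] at *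
  have h1 : 2 • (2 ^ n • x) = 0 := by rw [← mul_smul, ← pow_succ']; exact hx
  have h2 : 2 • (2 ^ n • y) = 0 := by rw [← mul_smul, ← pow_succ']; exact hy
  have := hΩ.two _ _ h1 h2 hx' hy'
  rw [smul_sub, this, sub_self]

theorem exists_mem (hΩ : Pruef Ω) (n : ℕ) : ∃ x : Ω, x ∈ A Ω (n + 1) ∧ x ∉ A Ω n := by
  induction n with
  | zero =>
    obtain ⟨x, hx, hx2⟩ := hΩ.nt
    refine ⟨x, ?_, ?_⟩
    · rw [mem_A]; simpa using hx2
    · rw [mem_A_zero]; exact hx
  | succ n ih =>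
    obtain ⟨x, hx, hx'⟩ := ih
    obtain ⟨y, rfl⟩ := hΩ.dv x
    exact ⟨y, mem_A_succ.2 hx, fun h => hx' (mem_A_succ.1 h)⟩

theorem A_finite (hΩ : Pruef Ω) (n : ℕ) : ((A Ω n : AddSubgroup Ω) : Set Ω).Finite := by
  induction n with
  | zero =>
    apply Set.Finite.subset (Set.finite_singleton (0 : Ω))
    intro x hx
    exact mem_A_zero.1 hx
  | succ n ih =>
    have : ((A Ω (n + 1) : AddSubgroup Ω) : Set Ω) = (fun x : Ω => 2 • x) ⁻¹' (A Ω n : Set Ω) := by
      ext x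
      exact mem_A_succ
    rw [this]
    apply Set.Finite.preimage' ih
    intro b _
    by_cases hb : ∃ x0 : Ω, 2 • x0 = b
    · obtain ⟨x0, hx0⟩ := hb
      obtain ⟨z, hz, hz2⟩ := hΩ.nt
      apply Set.Finite.subset (Set.toFinite ({x0, x0 + z} : Set Ω))
      intro x hx
      simp only [Set.mem_preimage, Set.mem_singleton_iff] at hx
      by_cases h0 : x = x0
      · left; exact h0
      · right
        have h1 : 2 • (x - x0) = 0 := by rw [smul_sub, hx, hx0, sub_self]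
        have := hΩ.two (x - x0) z h1 hz2 (sub_ne_zero.2 h0) hz
        simp only [Set.mem_singleton_iff]
        rw [← this]; abel
    · apply Set.Finite.subset Set.finite_empty
      intro x hx
      exact absurd ⟨x, hx⟩ hb

theorem exh (hΩ : Pruef Ω) (x : Ω) : ∃ n, x ∈ A Ω n := hΩ.tors x

theorem exh_finite (hΩ : Pruef Ω) {F : Set Ω} (hF : F.Finite) : ∃ n, ∀ x ∈ F, x ∈ A Ω n := by
  induction F, hF using Set.Finite.induction_on with
  | empty => exact ⟨0, by simp⟩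
  | @insert a s _ _ ih =>
    obtain ⟨n, hn⟩ := ih
    obtain ⟨m, hm⟩ := exh hΩ a
    refine ⟨max n m, ?_⟩
    intro x hx
    rcases Set.mem_insert_iff.1 hx with rfl | hx
    · exact A_mono (le_max_right _ _) hm
    · exact A_mono (le_max_left _ _) (hn x hx)

theorem ap_inv (g : Perm Ω) (x : Ω) : g (g⁻¹ x) = x := g.apply_symm_apply x

theorem inv_ap (g : Perm Ω) (x : Ω) : g⁻¹ (g x) = x := g.symm_apply_apply x

/-- displacement -/
def dsp (g : Perm Ω) (x : Ω) : Ω := g x - x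

theorem dsp_mul (g h : Perm Ω) (x : Ω) : dsp (g * h) x = dsp g (h x) + dsp h x := by
  simp [dsp]

theorem dsp_inv (g : Perm Ω) (x : Ω) : dsp g⁻¹ x = - dsp g (g⁻¹ x) := by
  simp [dsp]

/-- contracting displacement -/
def Lip (g : Perm Ω) : Prop :=
  ∀ (n : ℕ) (x y : Ω), x - y ∈ A Ω (n + 2) → dsp g x - dsp g y ∈ A Ω n

theorem Lip.diff {g : Perm Ω} (hg : Lip g) {n : ℕ} {x y : Ω} (h : x - y ∈ A Ω n) :
    dsp g x - dsp g y ∈ A Ω (n - 2) := by
  apply hg
  exact A_mono (by omega) h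

theorem Lip.map {g : Perm Ω} (hg : Lip g) {n : ℕ} {x y : Ω} (h : x - y ∈ A Ω n) :
    g x - g y ∈ A Ω n := by
  have h1 := hg.diff h
  have h2 : g x - g y = (x - y) + (dsp g x - dsp g y) := by simp only [dsp]; abel
  rw [h2]
  exact add_mem h (A_mono (by omega) h1)

theorem Lip.mul {g h : Perm Ω} (hg : Lip g) (hh : Lip h) : Lip (g * h) := by
  intro n x y hxy
  rw [dsp_mul, dsp_mul]
  have h1 := hh n x y hxy
  have h2 := hg n (h x) (h y) (hh.map hxy)
  have : dsp g (h x) + dsp h x - (dsp g (h y) + dsp h y) =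
    (dsp g (h x) - dsp g (h y)) + (dsp h x - dsp h y) := by abel
  rw [this]
  exact add_mem h2 h1

theorem Lip.one : Lip (1 : Perm Ω) := by
  intro n x y _
  simp only [dsp, Perm.coe_one, id_eq, sub_self]
  exact zero_mem _

/-- all permutations with contracting displacement -/
def W (Ω : Type) [AddCommGroup Ω] : Subgroup (Perm Ω) where
  carrier := {g | Lip g ∧ Lip g⁻¹}
  one_mem' := ⟨Lip.one, by rw [inv_one]; exact Lip.one⟩
  mul_mem' := by
    intro a b ha hb
    refine ⟨ha.1.mul hb.1, ?_⟩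
    rw [mul_inv_rev]
    exact hb.2.mul ha.2
  inv_mem' := by
    intro a ha
    refine ⟨ha.2, ?_⟩
    rw [inv_inv]
    exact ha.1

theorem W.lip {g : Perm Ω} (hg : g ∈ W Ω) : Lip g := hg.1

theorem W.map_iff {g : Perm Ω} (hg : g ∈ W Ω) {n : ℕ} {x y : Ω} :
    g x - g y ∈ A Ω n ↔ x - y ∈ A Ω n := by
  constructor
  · intro h
    have := hg.2.map h
    simpa using this
  · exact hg.1.map

/-- finitary permutations in `W` -/
def G (Ω : Type) [AddCommGroup Ω] : Subgroup (Perm Ω) where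
  carrier := {g | g ∈ W Ω ∧ {x : Ω | g x ≠ x}.Finite}
  one_mem' := ⟨one_mem _, by simp⟩
  mul_mem' := by
    intro a b ha hb
    refine ⟨mul_mem ha.1 hb.1, ?_⟩
    apply Set.Finite.subset (ha.2.union hb.2)
    intro x hx
    simp only [Set.mem_ofPred_eq, Set.mem_union] at *
    by_contra hcon
    push Not at hcon
    apply hx
    rw [Perm.mul_apply, hcon.2, hcon.1]
  inv_mem' := by
    intro a ha
    refine ⟨inv_mem ha.1, ?_⟩
    apply Set.Finite.subset ha.2
    intro x hx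
    simp only [Set.mem_ofPred_eq] at *
    intro h
    apply hx
    rw [Perm.inv_eq_iff_eq, h]

theorem G.W {g : Perm Ω} (hg : g ∈ G Ω) : g ∈ W Ω := hg.1

theorem G.fin {g : Perm Ω} (hg : g ∈ G Ω) : {x : Ω | g x ≠ x}.Finite := hg.2

/-- all displacements lie in `A j` -/
def K (j : ℕ) (g : Perm Ω) : Prop := ∀ x, dsp g x ∈ A Ω j

/-- exact level of the displacement at a point -/
def lev (g : Perm Ω) (x : Ω) (m : ℕ) : Prop := dsp g x ∈ A Ω m ∧ ∀ k, k < m → dsp g x ∉ A Ω k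

theorem exists_lev (hΩ : Pruef Ω) (g : Perm Ω) (x : Ω) : ∃ m, lev g x m := by
  classical
  refine ⟨Nat.find (exh hΩ (dsp g x)), Nat.find_spec (exh hΩ (dsp g x)), ?_⟩
  intro k hk
  exact Nat.find_min (exh hΩ (dsp g x)) hk

theorem lev.step {g : Perm Ω} (hg : Lip g) {x : Ω} {m : ℕ} (h : lev g x m) : lev g (g x) m := by
  have h1 : g x - x ∈ A Ω m := h.1
  have h2 := hg.diff h1
  have e : dsp g (g x) = (dsp g (g x) - dsp g x) + dsp g x := by abel
  refine ⟨?_, ?_⟩
  · rw [e]; exact add_mem (A_mono (by omega) h2) h.1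
  · intro k hk hcon
    apply h.2 (max k (m - 2)) (by omega)
    have e' : dsp g x = dsp g (g x) - (dsp g (g x) - dsp g x) := by abel
    rw [e']
    exact sub_mem (A_mono (le_max_left _ _) hcon) (A_mono (le_max_right _ _) h2)

theorem lev.sq {g : Perm Ω} (hg : Lip g) {x : Ω} {m : ℕ} (h : lev g x (m + 1)) :
    lev (g * g) x m := by
  have h1 : g x - x ∈ A Ω (m + 1) := h.1
  have h2 := hg.diff h1
  have e : dsp (g * g) x = 2 • dsp g x + (dsp g (g x) - dsp g x) := by rw [dsp_mul, two_smul]; abel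
  refine ⟨?_, ?_⟩
  · rw [e]
    exact add_mem (mem_A_succ.1 h.1) (A_mono (by omega) h2)
  · intro k hk hcon
    rw [e] at hcon
    have h3 : 2 • dsp g x ∈ A Ω (m - 1) := by
      have : 2 • dsp g x = (2 • dsp g x + (dsp g (g x) - dsp g x)) - (dsp g (g x) - dsp g x) := by
        abel
      rw [this]
      exact sub_mem (A_mono (by omega) hcon) (A_mono (by omega) h2)
    rw [← mem_A_succ] at h3
    exact h.2 (m - 1 + 1) (by omega) h3

theorem orbit_aux (hΩ : Pruef Ω) : ∀ (m : ℕ) (g : Perm Ω), Lip g → ∀ x y : Ω, lev g x m →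
    y - x ∈ A Ω m → ∃ k : ℕ, (g ^ k) x = y := by
  intro m
  induction m with
  | zero =>
    intro g _ x y _ hy
    refine ⟨0, ?_⟩
    rw [mem_A_zero, sub_eq_zero] at hy
    simp [hy]
  | succ m ih =>
    intro g hg x y hlev hy
    by_cases hym : y - x ∈ A Ω m
    · obtain ⟨k, hk⟩ := ih (g * g) (hg.mul hg) x y (hlev.sq hg) hym
      refine ⟨2 * k, ?_⟩
      rw [pow_mul, pow_two]; exact hk
    · have hy2 : y - g x ∈ A Ω m := by
        have e : y - g x = (y - x) - (g x - x) := by abel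
        rw [e]
        exact half hΩ hy hlev.1 hym (hlev.2 m (by omega))
      obtain ⟨k, hk⟩ := ih (g * g) (hg.mul hg) (g x) y ((hlev.step hg).sq hg) hy2
      refine ⟨2 * k + 1, ?_⟩
      rw [pow_succ, Perm.mul_apply, pow_mul, pow_two]; exact hk

theorem range_orbit (hΩ : Pruef Ω) {g : Perm Ω} (hg : g ∈ W Ω) {x : Ω} {m : ℕ} (h : lev g x m) :
    Set.range (fun n : ℤ => (g ^ n) x) = {y | y - x ∈ A Ω m} := by
  ext y
  simp only [Set.mem_range, Set.mem_ofPred_eq]
  constructor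
  · rintro ⟨n, rfl⟩
    have hx : g x - x ∈ A Ω m := h.1
    induction n using Int.induction_on with
    | zero => simp only [zpow_zero, Perm.coe_one, id_eq, sub_self]; exact zero_mem _
    | succ i ih =>
      have e : (g ^ ((i : ℤ) + 1)) x = g ((g ^ (i : ℤ)) x) := by
        rw [zpow_add_one, ← (Commute.zpow_self g (i : ℤ)).eq.symm, Perm.mul_apply]
      rw [e]
      have e2 : g ((g ^ (i : ℤ)) x) - x = (g ((g ^ (i : ℤ)) x) - g x) + (g x - x) := by abel
      rw [e2]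
      exact add_mem (hg.1.map ih) hx
    | pred i ih =>
      have e : (g ^ (-(i : ℤ) - 1)) x = g⁻¹ ((g ^ (-(i : ℤ))) x) := by
        rw [zpow_sub_one, ← (Commute.zpow_self g (-(i : ℤ))).inv_right.eq.symm, Perm.mul_apply]
      rw [e, ← W.map_iff hg, ap_inv]
      have e2 : (g ^ (-(i : ℤ))) x - g x = ((g ^ (-(i : ℤ))) x - x) - (g x - x) := by abel
      rw [e2]
      exact sub_mem ih hx
  · intro hy
    obtain ⟨k, hk⟩ := orbit_aux hΩ m g hg.1 x y h hy
    exact ⟨k, by simpa using hk⟩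

end Pool.Agent.MinNonFC
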