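import Pool.Agent.MinNonFC.A

set_option autoImplicit false

/-!
The limit translations attached to a transitive subgroup.
-/

namespace Pool.Agent.MinNonFC

open Equiv Filter

variable {Ω : Type} [AddCommGroup Ω]

/-- pointwise limit of permutations along an ultrafilter -/
theorem exists_lim (U : Ultrafilter ℕ) (u : ℕ → Perm Ω)
    (h1 : ∀ x, ∃ S : Set Ω, S.Finite ∧ ∀ᶠ N in U, u N x ∈ S)
    (h2 : ∀ x, ∃ S : Set Ω, S.Finite ∧ ∀ᶠ N in U, (u N)⁻¹ x ∈ S) :
    ∃ τ : Perm Ω, (∀ x, ∀ᶠ N in U, u N x = τ x) ∧ (∀ x, ∀ᶠ N in U, (u N)⁻¹ x = τ⁻¹ x) := by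
  have key : ∀ (v : ℕ → Ω) (S : Set Ω), S.Finite → (∀ᶠ N in U, v N ∈ S) →
      ∃ y, ∀ᶠ N in U, v N = y := by
    intro v S hS hv
    have : ∀ᶠ N in U, ∃ y ∈ S, v N = y := by
      filter_upwards [hv] with N hN
      exact ⟨v N, hN, rfl⟩
    obtain ⟨y, _, hy⟩ := (Ultrafilter.eventually_exists_mem_iff hS).1 this
    exact ⟨y, hy⟩
  have k1 : ∀ x, ∃ y, ∀ᶠ N in U, u N x = y := by
    intro x
    obtain ⟨S, hS, hx⟩ := h1 x
    exact key _ S hS hx
  have k2 : ∀ x, ∃ y, ∀ᶠ N in U, (u N)⁻¹ x = y := by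
    intro x
    obtain ⟨S, hS, hx⟩ := h2 x
    exact key _ S hS hx
  choose f hf using k1
  choose f' hf' using k2
  have e1 : ∀ x, f' (f x) = x := by
    intro x
    obtain ⟨N, hN1, hN2⟩ := ((hf x).and (hf' (f x))).exists
    rw [← hN2, ← hN1, inv_ap]
  have e2 : ∀ x, f (f' x) = x := by
    intro x
    obtain ⟨N, hN1, hN2⟩ := ((hf' x).and (hf (f' x))).exists
    rw [← hN2, ← hN1, ap_inv]
  refine ⟨⟨f, f', e1, e2⟩, ?_, ?_⟩
  · intro x; exact hf x
  · intro x; exact hf' x

theorem lev_pow {g : Perm Ω} (hg : g ∈ W Ω) {z : Ω} : ∀ (j m : ℕ), lev g z (m + j) →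
    lev (g ^ (2 ^ j)) z m := by
  intro j
  induction j with
  | zero => intro m h; simpa using h
  | succ j ih =>
    intro m h
    have h1 : lev (g ^ (2 ^ j)) z (m + 1) := by
      apply ih
      rw [show m + 1 + j = m + (j + 1) by omega]
      exact h
    have h2 := lev.sq (W.lip (pow_mem hg _)) h1
    rw [pow_succ 2 j, pow_mul, pow_two]
    exact h2

theorem lev_ball {g : Perm Ω} (hg : Lip g) {N : ℕ} (h0 : lev g 0 N) {z : Ω} (hz : z ∈ A Ω N) :
    lev g z N := by
  have h2 : dsp g z - dsp g 0 ∈ A Ω (N - 2) := by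
    apply hg.diff
    simpa using hz
  refine ⟨?_, ?_⟩
  · have e : dsp g z = (dsp g z - dsp g 0) + dsp g 0 := by abel
    rw [e]; exact add_mem (A_mono (by omega) h2) h0.1
  · intro k hk hcon
    apply h0.2 (max k (N - 2)) (by omega)
    have e' : dsp g 0 = dsp g z - (dsp g z - dsp g 0) := by abel
    rw [e']
    exact sub_mem (A_mono (le_max_left _ _) hcon) (A_mono (le_max_right _ _) h2)

/-- data of limit translations -/
structure Trans (H : Subgroup (Perm Ω)) (t : ℕ → Perm Ω) : Prop where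
  w : ∀ m, t m ∈ W Ω
  lv : ∀ m x, lev (t m) x m
  sq : ∀ m, t (m + 1) * t (m + 1) = t m
  comm : ∀ m n, t m * t n = t n * t m
  agree : ∀ m n, ∃ h ∈ H, ∀ x ∈ A Ω n, h x = t m x

theorem exists_trans (hΩ : Pruef Ω) {H : Subgroup (Perm Ω)} (hHW : ∀ g ∈ H, g ∈ W Ω)
    (htr : ∀ x y : Ω, ∃ g ∈ H, g x = y) : ∃ t : ℕ → Perm Ω, Trans H t := by
  classical
  -- choose the elements `g N`
  have hg : ∀ N : ℕ, ∃ g ∈ H, lev g 0 N := by
    intro N
    rcases N with _ | N
    · refine ⟨1, one_mem _, ?_, ?_⟩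
      · simp only [dsp, Perm.coe_one, id_eq, sub_self]; exact zero_mem _
      · intro k hk; omega
    · obtain ⟨x, hx, hx'⟩ := exists_mem hΩ N
      obtain ⟨g, hgH, hgx⟩ := htr 0 x
      refine ⟨g, hgH, ?_, ?_⟩
      · simpa [dsp, hgx] using hx
      · intro k hk hcon
        apply hx'
        have : x ∈ A Ω k := by simpa [dsp, hgx] using hcon
        exact A_mono (by omega) this
  choose g hgH hlev using hg
  let U : Ultrafilter ℕ := hyperfilter ℕ
  have hU : ∀ n : ℕ, ∀ᶠ N in U, n ≤ N := by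
    intro n
    have : ∀ᶠ N in (cofinite : Filter ℕ), n ≤ N := by
      rw [Nat.cofinite_eq_atTop]
      exact eventually_ge_atTop n
    exact hyperfilter_le_cofinite this
  let u : ℕ → ℕ → Perm Ω := fun m N => (g N) ^ (2 ^ (N - m))
  have huW : ∀ m N, u m N ∈ W Ω := fun m N => pow_mem (hHW _ (hgH N)) _
  have huH : ∀ m N, u m N ∈ H := fun m N => pow_mem (hgH N) _
  have hulev : ∀ m N x, m ≤ N → x ∈ A Ω N → lev (u m N) x m := by
    intro m N x hmN hx
    apply lev_pow (hHW _ (hgH N))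
    rw [Nat.add_sub_cancel' hmN]
    exact lev_ball (W.lip (hHW _ (hgH N))) (hlev N) hx
  have ex : ∀ m, ∃ τ : Perm Ω, (∀ x, ∀ᶠ N in U, u m N x = τ x) ∧
      (∀ x, ∀ᶠ N in U, (u m N)⁻¹ x = τ⁻¹ x) := by
    intro m
    apply exists_lim
    · intro x
      obtain ⟨n, hn⟩ := exh hΩ x
      refine ⟨(fun y => y + x) '' (A Ω m : Set Ω), (A_finite hΩ m).image _, ?_⟩
      filter_upwards [hU (max n m)] with N hN
      have h1 := (hulev m N x (le_trans (le_max_right _ _) hN)
        (A_mono (le_trans (le_max_left _ _) hN) hn)).1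
      exact ⟨dsp (u m N) x, h1, by simp [dsp]⟩
    · intro x
      obtain ⟨n, hn⟩ := exh hΩ x
      refine ⟨(fun y => x - y) '' (A Ω m : Set Ω), (A_finite hΩ m).image _, ?_⟩
      filter_upwards [hU (max n m)] with N hN
      have hmN : m ≤ N := le_trans (le_max_right _ _) hN
      have hxN : x ∈ A Ω N := A_mono (le_trans (le_max_left _ _) hN) hn
      -- (u m N)⁻¹ x ∈ A N
      have h0 : (u m N)⁻¹ x ∈ A Ω N := by
        have h00 := (hulev m N 0 hmN (zero_mem _)).1
        have h01 : u m N 0 ∈ A Ω m := by simpa [dsp] using h00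
        have h02 : u m N ((u m N)⁻¹ x) - u m N 0 ∈ A Ω N := by
          rw [ap_inv]
          exact sub_mem hxN (A_mono hmN h01)
        rw [W.map_iff (huW m N)] at h02
        simpa using h02
      have h1 := (hulev m N _ hmN h0).1
      refine ⟨dsp (u m N) ((u m N)⁻¹ x), h1, ?_⟩
      simp only [dsp, ap_inv]; abel
  choose t ht ht' using ex
  refine ⟨t, ?_, ?_, ?_, ?_, ?_⟩
  · intro m
    constructor
    · intro n x y hxy
      obtain ⟨N, hN1, hN2⟩ := ((ht m x).and (ht m y)).exists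
      have := (huW m N).1 n x y hxy
      simpa [dsp, hN1, hN2] using this
    · intro n x y hxy
      obtain ⟨N, hN1, hN2⟩ := ((ht' m x).and (ht' m y)).exists
      have := (huW m N).2 n x y hxy
      simpa only [dsp, hN1, hN2] using this
  · intro m x
    obtain ⟨n, hn⟩ := exh hΩ x
    obtain ⟨N, hN1, hN2⟩ := ((ht m x).and (hU (max n m))).exists
    have := hulev m N x (le_trans (le_max_right _ _) hN2)
      (A_mono (le_trans (le_max_left _ _) hN2) hn)
    simpa only [lev, dsp, hN1] using this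
  · intro m
    ext x
    obtain ⟨N, ⟨hN1, hN2⟩, hN3, hN4⟩ :=
      (((ht (m + 1) x).and (ht (m + 1) (t (m + 1) x))).and ((ht m x).and (hU (m + 1)))).exists
    rw [Perm.mul_apply, ← hN2, ← hN1, ← Perm.mul_apply, ← hN3]
    have : u (m + 1) N * u (m + 1) N = u m N := by
      simp only [u]
      rw [← pow_two, ← pow_mul, ← pow_succ]
      congr 2
      omega
    rw [this]
  · intro m n
    ext x
    obtain ⟨N, ⟨hN1, hN2⟩, hN3, hN4⟩ :=
      (((ht n x).and (ht m (t n x))).and ((ht m x).and (ht n (t m x)))).exists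
    rw [Perm.mul_apply, Perm.mul_apply, ← hN2, ← hN1, ← hN4, ← hN3, ← Perm.mul_apply,
      ← Perm.mul_apply]
    have : u m N * u n N = u n N * u m N := by
      simp only [u]
      rw [← pow_add, ← pow_add, add_comm]
    rw [this]
  · intro m n
    have hfin : ∀ᶠ N in U, ∀ x ∈ (A Ω n : Set Ω), u m N x = t m x := by
      rw [Filter.eventually_all_finite (A_finite hΩ n)]
      intro x _
      exact ht m x
    obtain ⟨N, hN⟩ := hfin.exists
    exact ⟨u m N, huH m N, fun x hx => hN x hx⟩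

end Pool.Agent.MinNonFC
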