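import Pool.Agent.MinNonFC.B

set_option autoImplicit false

/-!
Truncated translations and the filtration argument.
-/

namespace Pool.Agent.MinNonFC

open Equiv

section uniserial

variable {M : Type} [AddCommGroup M]

theorem exists_top (N : M →+ M) (hnil : ∀ f : M, ∃ b, N^[b] f = 0) {w : M} (hw : w ≠ 0) :
    ∃ b, N^[b] w ≠ 0 ∧ N^[b + 1] w = 0 := by
  classical
  have h := hnil w
  have h0 : Nat.find h ≠ 0 := by
    intro h0
    have := Nat.find_spec h
    rw [h0] at this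
    exact hw (by simpa using this)
  obtain ⟨b, hb⟩ := Nat.exists_eq_succ_of_ne_zero h0
  refine ⟨b, ?_, ?_⟩
  · exact Nat.find_min h (by omega)
  · have := Nat.find_spec h
    rwa [hb] at this

theorem iter_zero (N : M →+ M) (a : ℕ) : N^[a] (0 : M) = 0 := by
  induction a with
  | zero => rfl
  | succ a ih => rw [Function.iterate_succ_apply', ih, map_zero]

theorem iter_sub (N : M →+ M) (a : ℕ) (x y : M) : N^[a] (x - y) = N^[a] x - N^[a] y := by
  induction a with
  | zero => rfl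
  | succ a ih =>
    rw [Function.iterate_succ_apply', ih, map_sub, Function.iterate_succ_apply',
      Function.iterate_succ_apply']

theorem iter_ne (N : M →+ M) {a : ℕ} {w : M} (h : N^[a + 1] w ≠ 0) : N^[a] w ≠ 0 := by
  intro h0
  apply h
  rw [Function.iterate_succ_apply', h0, map_zero]

theorem iter_zero_of_le (N : M →+ M) {a b : ℕ} {w : M} (hab : a ≤ b) (h : N^[a] w = 0) :
    N^[b] w = 0 := by
  obtain ⟨k, rfl⟩ := Nat.exists_eq_add_of_le hab
  rw [add_comm, Function.iterate_add_apply, h, iter_zero]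

theorem iter_mem (N : M →+ M) (X : AddSubgroup M) (hX : ∀ f ∈ X, N f ∈ X) {w : M} (hw : w ∈ X)
    (a : ℕ) : N^[a] w ∈ X := by
  induction a with
  | zero => exact hw
  | succ a ih => rw [Function.iterate_succ_apply']; exact hX _ ih

theorem uni_aux (N : M →+ M) (F X : AddSubgroup M) (one : M) (hF : ∀ f ∈ F, N f ∈ F)
    (hX : ∀ f ∈ X, N f ∈ X) (hnil : ∀ f : M, ∃ b, N^[b] f = 0)
    (hker : ∀ f ∈ F, N f = 0 → f = 0 ∨ f = one) {w : M} (hwX : w ∈ X) (hwF : w ∈ F) :
    ∀ a : ℕ, N^[a] w ≠ 0 → ∀ v ∈ F, N^[a + 1] v = 0 → v ∈ X := by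
  intro a
  induction a with
  | zero =>
    intro hw v hv hv0
    have hw0 : w ≠ 0 := by simpa using hw
    obtain ⟨b, hb, hb1⟩ := exists_top N hnil hw0
    have hone : N^[b] w = one := by
      rw [Function.iterate_succ_apply'] at hb1
      rcases hker _ (iter_mem N F hF hwF b) hb1 with h | h
      · exact absurd h hb
      · exact h
    have hv0' : N v = 0 := by simpa using hv0
    rcases hker v hv hv0' with h | h
    · rw [h]; exact zero_mem _
    · rw [h, ← hone]; exact iter_mem N X hX hwX b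
  | succ a ih =>
    intro hw v hv hv0
    have hwa := iter_ne N hw
    have hw0 : w ≠ 0 := by
      intro h
      apply hw
      rw [h, iter_zero]
    obtain ⟨b, hb, hb1⟩ := exists_top N hnil hw0
    have hone : N^[b] w = one := by
      rw [Function.iterate_succ_apply'] at hb1
      rcases hker _ (iter_mem N F hF hwF b) hb1 with h | h
      · exact absurd h hb
      · exact h
    have hab : a + 1 ≤ b := by
      by_contra hcon
      exact hw (iter_zero_of_le N (by omega) hb1)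
    have hv1 : N (N^[a + 1] v) = 0 := by
      rw [← Function.iterate_succ_apply' (f := N)]; exact hv0
    rcases hker _ (iter_mem N F hF hv (a + 1)) hv1 with h | h
    · exact ih hwa v hv h
    · have hv' : v - N^[b - (a + 1)] w ∈ X := by
        apply ih hwa
        · exact sub_mem hv (iter_mem N F hF hwF _)
        · rw [iter_sub, h, ← Function.iterate_add_apply, Nat.add_sub_cancel' hab, hone, sub_self]
      have : v = (v - N^[b - (a + 1)] w) + N^[b - (a + 1)] w := by abel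
      rw [this]
      exact add_mem hv' (iter_mem N X hX hwX _)

theorem uni (N : M →+ M) (F V V' : AddSubgroup M) (one : M) (hF : ∀ f ∈ F, N f ∈ F)
    (hV : ∀ f ∈ V, N f ∈ V) (hV' : ∀ f ∈ V', N f ∈ V') (hnil : ∀ f : M, ∃ b, N^[b] f = 0)
    (hker : ∀ f ∈ F, N f = 0 → f = 0 ∨ f = one) {v w : M} (hvV : v ∈ V) (hvF : v ∈ F)
    (hwF : w ∈ F) (hwV : w ∉ V) (hNw : N w ∈ V') : v ∈ V' := by
  by_cases hv0 : v = 0
  · rw [hv0]; exact zero_mem _
  obtain ⟨a, ha, ha1⟩ := exists_top N hnil hv0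
  by_cases hwa : N^[a + 1] w = 0
  · exact absurd (uni_aux N F V one hF hV hnil hker hvV hvF a ha w hwF hwa) hwV
  · have hwa' : N^[a] (N w) ≠ 0 := by
      rw [← Function.iterate_succ_apply]; exact hwa
    exact uni_aux N F V' one hF hV' hnil hker hNw (hF _ hwF) a hwa' v hvF ha1

end uniserial

variable {Ω : Type} [AddCommGroup Ω]

theorem K.mono {i j : ℕ} (h : i ≤ j) {g : Perm Ω} (hg : K i g) : K j g :=
  fun x => A_mono h (hg x)

theorem K.mem_iff {n : ℕ} {τ : Perm Ω} (h : K n τ) {x : Ω} : τ x ∈ A Ω n ↔ x ∈ A Ω n := by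
  have h1 : τ x = dsp τ x + x := by simp [dsp]
  rw [h1]
  exact AddSubgroup.add_mem_cancel_left _ (h x)

theorem K.inv {n : ℕ} {τ : Perm Ω} (h : K n τ) : K n τ⁻¹ := by
  intro x
  rw [dsp_inv]
  exact neg_mem (h _)

theorem K.mul {n : ℕ} {σ τ : Perm Ω} (h : K n σ) (h' : K n τ) : K n (σ * τ) := by
  intro x
  rw [dsp_mul]
  exact add_mem (h _) (h' _)

theorem K.sq {j : ℕ} {g : Perm Ω} (hg : Lip g) (h : K (j + 1) g) : K j (g * g) := by
  intro x
  have h1 : g x - x ∈ A Ω (j + 1) := h x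
  have h2 := hg.diff h1
  have e : dsp (g * g) x = 2 • dsp g x + (dsp g (g x) - dsp g x) := by rw [dsp_mul, two_smul]; abel
  rw [e]
  exact add_mem (mem_A_succ.1 (h x)) (A_mono (by omega) h2)

theorem K_zero {g : Perm Ω} : K 0 g ↔ g = 1 := by
  constructor
  · intro h
    ext x
    have := h x
    rw [mem_A_zero] at this
    simpa [dsp, sub_eq_zero] using this
  · rintro rfl x
    simp only [dsp, Perm.coe_one, id_eq, sub_self]; exact zero_mem _

open Classical in
/-- truncation of a permutation preserving `A n` -/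
noncomputable def trunc (n : ℕ) (τ : Perm Ω) : Perm Ω :=
  if h : K n τ then
    { toFun := fun x => if x ∈ A Ω n then τ x else x
      invFun := fun x => if x ∈ A Ω n then τ⁻¹ x else x
      left_inv := by
        intro x
        by_cases hx : x ∈ A Ω n
        · simp only [hx, if_true, h.mem_iff, inv_ap]
        · simp only [hx, if_false]
      right_inv := by
        intro x
        by_cases hx : x ∈ A Ω n
        · simp only [hx, if_true, h.inv.mem_iff, ap_inv]
        · simp only [hx, if_false] }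
  else 1

theorem trunc_mem {n : ℕ} {τ : Perm Ω} (h : K n τ) {x : Ω} (hx : x ∈ A Ω n) :
    trunc n τ x = τ x := by
  classical
  simp only [trunc, dif_pos h]
  exact if_pos hx

theorem trunc_not_mem {n : ℕ} {τ : Perm Ω} {x : Ω} (hx : x ∉ A Ω n) :
    trunc n τ x = x := by
  classical
  by_cases h : K n τ
  · simp only [trunc, dif_pos h]
    exact if_neg hx
  · simp only [trunc, dif_neg h]
    rfl

theorem trunc_K {m n : ℕ} {τ : Perm Ω} (h : K n τ) (h' : K m τ) : K m (trunc n τ) := by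
  intro x
  by_cases hx : x ∈ A Ω n
  · simp only [dsp, trunc_mem h hx]; exact h' x
  · simp only [dsp, trunc_not_mem hx, sub_self]; exact zero_mem _

theorem trunc_mul {n : ℕ} {σ τ : Perm Ω} (h : K n σ) (h' : K n τ) :
    trunc n σ * trunc n τ = trunc n (σ * τ) := by
  ext x
  by_cases hx : x ∈ A Ω n
  · rw [Perm.mul_apply, trunc_mem h' hx, trunc_mem h (h'.mem_iff.2 hx), trunc_mem (h.mul h') hx,
      Perm.mul_apply]
  · rw [Perm.mul_apply, trunc_not_mem hx, trunc_not_mem hx, trunc_not_mem hx]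

theorem trunc_one {n : ℕ} : trunc n (1 : Perm Ω) = 1 := by
  have h1 : K n (1 : Perm Ω) := K.mono (Nat.zero_le _) (K_zero.2 rfl)
  ext x
  by_cases hx : x ∈ A Ω n
  · rw [trunc_mem h1 hx]
  · rw [trunc_not_mem hx]; rfl

theorem trunc_inv {n : ℕ} {τ : Perm Ω} (h : K n τ) : (trunc n τ)⁻¹ = trunc n τ⁻¹ := by
  apply inv_eq_of_mul_eq_one_right
  rw [trunc_mul h h.inv, mul_inv_cancel, trunc_one]

theorem trunc_lip {m n : ℕ} {τ : Perm Ω} (hτ : Lip τ) (hm : K m τ) (hmn : m + 1 ≤ n) :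
    Lip (trunc n τ) := by
  have hn : K n τ := K.mono (by omega) hm
  intro i x y hxy
  by_cases hx : x ∈ A Ω n
  · by_cases hy : y ∈ A Ω n
    · have := hτ i x y hxy
      simpa only [dsp, trunc_mem hn hx, trunc_mem hn hy] using this
    · have hni : n ≤ i + 1 := by
        by_contra hcon
        apply hy
        have e : y = x - (x - y) := by abel
        rw [e]
        exact sub_mem hx (A_mono (by omega) hxy)
      have e : dsp (trunc n τ) x - dsp (trunc n τ) y = dsp τ x := by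
        simp only [dsp, trunc_mem hn hx, trunc_not_mem hy]; abel
      rw [e]
      exact A_mono (by omega) (hm x)
  · by_cases hy : y ∈ A Ω n
    · have hni : n ≤ i + 1 := by
        by_contra hcon
        apply hx
        have e : x = y + (x - y) := by abel
        rw [e]
        exact add_mem hy (A_mono (by omega) hxy)
      have e : dsp (trunc n τ) x - dsp (trunc n τ) y = - dsp τ y := by
        simp only [dsp, trunc_mem hn hy, trunc_not_mem hx]; abel
      rw [e]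
      exact neg_mem (A_mono (by omega) (hm y))
    · have e : dsp (trunc n τ) x - dsp (trunc n τ) y = 0 := by
        simp only [dsp, trunc_not_mem hy, trunc_not_mem hx]; abel
      rw [e]
      exact zero_mem _

theorem trunc_W {m n : ℕ} {τ : Perm Ω} (hτ : τ ∈ W Ω) (hm : K m τ) (hmn : m + 1 ≤ n) :
    trunc n τ ∈ W Ω := by
  refine ⟨trunc_lip hτ.1 hm hmn, ?_⟩
  rw [trunc_inv (K.mono (by omega) hm)]
  exact trunc_lip hτ.2 hm.inv hmn

/-- elements of `H` supported on `A n` -/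
def R (H : Subgroup (Perm Ω)) (n : ℕ) : Subgroup (Perm Ω) where
  carrier := {r | r ∈ H ∧ ∀ x, x ∉ A Ω n → r x = x}
  one_mem' := ⟨one_mem _, fun _ _ => rfl⟩
  mul_mem' := by
    intro a b ha hb
    refine ⟨mul_mem ha.1 hb.1, fun x hx => ?_⟩
    rw [Perm.mul_apply, hb.2 x hx, ha.2 x hx]
  inv_mem' := by
    intro a ha
    refine ⟨inv_mem ha.1, fun x hx => ?_⟩
    rw [Perm.inv_eq_iff_eq, ha.2 x hx]

theorem supp_mem_iff {r : Perm Ω} {n : ℕ} (hr : ∀ x, x ∉ A Ω n → r x = x) {x : Ω} :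
    r x ∈ A Ω n ↔ x ∈ A Ω n := by
  constructor
  · intro h
    by_contra hx
    rw [hr x hx] at h
    exact hx h
  · intro h
    by_contra hx
    have := hr _ hx
    have := r.injective this
    rw [this] at hx
    exact hx h

theorem R_mono {H : Subgroup (Perm Ω)} {m n : ℕ} (h : m ≤ n) {r : Perm Ω} (hr : r ∈ R H m) :
    r ∈ R H n :=
  ⟨hr.1, fun x hx => hr.2 x (fun hx' => hx (A_mono h hx'))⟩

/-- `c` preserves `A n` and agrees on it with an element of `H` -/
def Agr (H : Subgroup (Perm Ω)) (n : ℕ) (c : Perm Ω) : Prop :=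
  (∀ x, c x ∈ A Ω n ↔ x ∈ A Ω n) ∧ ∃ h ∈ H, ∀ x ∈ A Ω n, h x = c x

theorem Agr.inv {H : Subgroup (Perm Ω)} {n : ℕ} {c : Perm Ω} (hc : Agr H n c) :
    Agr H n c⁻¹ := by
  have h1 : ∀ x, c⁻¹ x ∈ A Ω n ↔ x ∈ A Ω n := by
    intro x
    rw [← hc.1 (c⁻¹ x), ap_inv]
  refine ⟨h1, ?_⟩
  obtain ⟨h, hH, hh⟩ := hc.2
  refine ⟨h⁻¹, inv_mem hH, fun x hx => ?_⟩
  rw [Perm.inv_eq_iff_eq, hh _ ((h1 x).2 hx), ap_inv]

theorem conj_mem {H : Subgroup (Perm Ω)} {n : ℕ} {c : Perm Ω} (hc : Agr H n c) {r : Perm Ω}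
    (hr : r ∈ R H n) : c * r * c⁻¹ ∈ R H n := by
  obtain ⟨h, hH, hh⟩ := hc.2
  have hinv := hc.inv
  have e : c * r * c⁻¹ = h * r * h⁻¹ := by
    ext y
    rw [Perm.mul_apply, Perm.mul_apply, Perm.mul_apply, Perm.mul_apply]
    by_cases hy : y ∈ A Ω n
    · have h1 : c⁻¹ y ∈ A Ω n := (hinv.1 y).2 hy
      have h2 : h⁻¹ y = c⁻¹ y := by
        rw [Perm.inv_eq_iff_eq, hh _ h1, ap_inv]
      rw [h2, hh _ ((supp_mem_iff hr.2).2 h1)]
    · have h1 : c⁻¹ y ∉ A Ω n := fun h => hy ((hinv.1 y).1 h)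
      have h2 : h⁻¹ y ∉ A Ω n := by
        intro h2
        apply hy
        have := hh _ h2
        rw [ap_inv] at this
        rw [this]
        exact (hc.1 _).2 h2
      rw [hr.2 _ h1, hr.2 _ h2, ap_inv, ap_inv]
  refine ⟨?_, ?_⟩
  · rw [e]
    exact mul_mem (mul_mem hH hr.1) (inv_mem hH)
  · intro x hx
    rw [Perm.mul_apply, Perm.mul_apply]
    have h1 : c⁻¹ x ∉ A Ω n := fun h => hx ((hinv.1 x).1 h)
    rw [hr.2 _ h1, ap_inv]

section main

variable {H : Subgroup (Perm Ω)} {t : ℕ → Perm Ω}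

theorem Trans.K (T : Trans H t) {m n : ℕ} (h : m ≤ n) : K n (t m) :=
  fun x => A_mono h (T.lv m x).1

theorem Trans.agr (T : Trans H t) {m n : ℕ} (h : m ≤ n) : Agr H n (t m) :=
  ⟨fun _ => (T.K h).mem_iff, T.agree m n⟩

theorem Trans.agr_trunc (T : Trans H t) {m n : ℕ} (h : m ≤ n) : Agr H n (trunc n (t m)) := by
  refine ⟨fun _ => (trunc_K (T.K h) (T.K h)).mem_iff, ?_⟩
  obtain ⟨g, hg, hgx⟩ := T.agree m n
  exact ⟨g, hg, fun x hx => by rw [trunc_mem (T.K h) hx]; exact hgx x hx⟩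

/-- the filtration condition -/
def C (H : Subgroup (Perm Ω)) (t : ℕ → Perm Ω) (n m j : ℕ) : Prop :=
  ∃ r ∈ R H n, MinNonFC.K j (trunc n (t m) * r)

theorem C_self (T : Trans H t) {n m : ℕ} (h : m ≤ n) : C H t n m m :=
  ⟨1, one_mem _, by rw [mul_one]; exact trunc_K (T.K h) (T.K le_rfl)⟩

theorem C_zero_iff {n m : ℕ} :
    C H t n m 0 ↔ trunc n (t m) ∈ H := by
  constructor
  · rintro ⟨r, hr, hK⟩
    rw [K_zero] at hK
    have : trunc n (t m) = r⁻¹ := eq_inv_of_mul_eq_one_left hK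
    rw [this]
    exact inv_mem hr.1
  · intro hmem
    refine ⟨(trunc n (t m))⁻¹, inv_mem ⟨hmem, fun x hx => trunc_not_mem hx⟩, ?_⟩
    rw [mul_inv_cancel, K_zero]

theorem C_mono {n m i j : ℕ} (h : i ≤ j) (hC : C H t n m i) : C H t n m j := by
  obtain ⟨r, hr, hK⟩ := hC
  exact ⟨r, hr, hK.mono h⟩

theorem C_succ (hΩ : Pruef Ω) (T : Trans H t) {n m j : ℕ} (h : m ≤ n) (hC : C H t n m j) :
    C H t (n + 1) m j := by
  obtain ⟨r, hr, hK⟩ := hC
  have hs := conj_mem (T.agr (le_refl (n + 1))) (R_mono (Nat.le_succ n) hr)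
  refine ⟨r * (t (n + 1) * r * (t (n + 1))⁻¹), mul_mem (R_mono (Nat.le_succ n) hr) hs, ?_⟩
  have hlv := T.lv (n + 1)
  intro x
  by_cases hx : x ∈ A Ω n
  · -- `t⁻¹ x` is not in `A n`
    have h1 : (t (n + 1))⁻¹ x ∉ A Ω n := by
      intro hcon
      have h2 := (hlv ((t (n + 1))⁻¹ x)).2 n (Nat.lt_succ_self n)
      apply h2
      simp only [dsp, ap_inv]
      exact sub_mem hx hcon
    have h3 : (t (n + 1) * r * (t (n + 1))⁻¹) x = x := by
      rw [Perm.mul_apply, Perm.mul_apply, hr.2 _ h1, ap_inv]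
    have h4 : r x ∈ A Ω n := (supp_mem_iff hr.2).2 hx
    have h5 : trunc (n + 1) (t m) (r x) = trunc n (t m) (r x) := by
      rw [trunc_mem (T.K (by omega)) (A_mono (Nat.le_succ n) h4), trunc_mem (T.K h) h4]
    have h6 : dsp (trunc (n + 1) (t m) * (r * (t (n + 1) * r * (t (n + 1))⁻¹))) x =
        dsp (trunc n (t m) * r) x := by
      simp only [dsp]
      rw [Perm.mul_apply, Perm.mul_apply r, h3, h5, Perm.mul_apply]
    rw [h6]
    exact hK x
  · by_cases hx' : x ∈ A Ω (n + 1)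
    · have h1 : (t (n + 1))⁻¹ x ∈ A Ω n := by
        have h2 := hlv ((t (n + 1))⁻¹ x)
        simp only [lev, dsp, ap_inv] at h2
        have h3 := half hΩ hx' h2.1 hx (h2.2 n (Nat.lt_succ_self n))
        have e : (t (n + 1))⁻¹ x = x - (x - (t (n + 1))⁻¹ x) := by abel
        rw [e]; exact h3
      set y := (t (n + 1))⁻¹ x with hy
      have hxy : x = t (n + 1) y := by rw [hy, ap_inv]
      have h3 : r y ∈ A Ω n := (supp_mem_iff hr.2).2 h1
      have h4 : t (n + 1) (r y) ∉ A Ω n := by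
        intro hcon
        apply (hlv (r y)).2 n (Nat.lt_succ_self n)
        simp only [dsp]
        exact sub_mem hcon h3
      have h5 : t (n + 1) (r y) ∈ A Ω (n + 1) :=
        (T.K le_rfl).mem_iff.2 (A_mono (Nat.le_succ n) h3)
      have h6 : (trunc (n + 1) (t m) * (r * (t (n + 1) * r * (t (n + 1))⁻¹))) x =
          t (n + 1) ((trunc n (t m) * r) y) := by
        have hcomm : ∀ z, t m (t (n + 1) z) = t (n + 1) (t m z) := by
          intro z
          rw [← Perm.mul_apply, T.comm, Perm.mul_apply]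
        rw [Perm.mul_apply, Perm.mul_apply r, Perm.mul_apply, Perm.mul_apply, ← hy, hr.2 _ h4,
          trunc_mem (T.K (by omega)) h5, Perm.mul_apply, trunc_mem (T.K h) h3, hcomm]
      have h7 : dsp (trunc (n + 1) (t m) * (r * (t (n + 1) * r * (t (n + 1))⁻¹))) x =
          t (n + 1) ((trunc n (t m) * r) y) - t (n + 1) y := by
        simp only [dsp]
        rw [h6, ← hxy]
      rw [h7, W.map_iff (T.w _)]
      exact hK y
    · have h1 : (r * (t (n + 1) * r * (t (n + 1))⁻¹)) x = x := by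
        have h2 := hs.2 x hx'
        rw [Perm.mul_apply, h2, hr.2 x hx]
      have h7 : dsp (trunc (n + 1) (t m) * (r * (t (n + 1) * r * (t (n + 1))⁻¹))) x = 0 := by
        simp only [dsp]
        rw [Perm.mul_apply, h1, trunc_not_mem hx', sub_self]
      rw [h7]
      exact zero_mem _

theorem C_le (hΩ : Pruef Ω) (T : Trans H t) {n n' m j : ℕ} (h : m ≤ n) (hn : n ≤ n')
    (hC : C H t n m j) : C H t n' m j := by
  induction n', hn using Nat.le_induction with
  | base => exact hC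
  | succ k hk ih => exact C_succ hΩ T (le_trans h hk) ih

theorem C_pred (hHW : ∀ g ∈ H, g ∈ W Ω) (T : Trans H t) {n m j : ℕ} (h : m + 2 ≤ n)
    (hC : C H t n (m + 1) (j + 1)) : C H t n m j := by
  obtain ⟨r, hr, hK⟩ := hC
  have hKn : MinNonFC.K n (t (m + 1)) := T.K (by omega)
  have hW : trunc n (t (m + 1)) * r ∈ W Ω :=
    mul_mem (trunc_W (T.w _) (T.K le_rfl) (by omega)) (hHW _ hr.1)
  have hsq := K.sq hW.1 hK
  have hc := conj_mem (T.agr_trunc (show m + 1 ≤ n by omega)).inv hr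
  rw [inv_inv] at hc
  refine ⟨((trunc n (t (m + 1)))⁻¹ * r * trunc n (t (m + 1))) * r, mul_mem hc hr, ?_⟩
  have e : trunc n (t m) * ((trunc n (t (m + 1)))⁻¹ * r * trunc n (t (m + 1)) * r) =
      trunc n (t (m + 1)) * r * (trunc n (t (m + 1)) * r) := by
    rw [← T.sq m, ← trunc_mul hKn hKn]
    group
  rw [e]
  exact hsq

/-- indicator of displacement outside `A i` -/
noncomputable def wf (i : ℕ) (g : Perm Ω) (x : Ω) : ZMod 2 := by
  classical
  exact if dsp g x ∈ A Ω i then 0 else 1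

theorem wf_in {i : ℕ} {g : Perm Ω} {x : Ω} (h : dsp g x ∈ A Ω i) : wf i g x = 0 := by
  classical
  simp only [wf, if_pos h]

theorem wf_out {i : ℕ} {g : Perm Ω} {x : Ω} (h : dsp g x ∉ A Ω i) : wf i g x = 1 := by
  classical
  simp only [wf, if_neg h]

theorem wf_eq_zero_iff {i : ℕ} {g : Perm Ω} {x : Ω} : wf i g x = 0 ↔ dsp g x ∈ A Ω i := by
  constructor
  · intro h
    by_contra hcon
    rw [wf_out hcon] at h
    exact one_ne_zero h
  · exact wf_in

theorem wf_congr {i j : ℕ} {g h : Perm Ω} {x y : Ω}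
    (hxy : dsp g x ∈ A Ω i ↔ dsp h y ∈ A Ω j) : wf i g x = wf j h y := by
  by_cases h1 : dsp g x ∈ A Ω i
  · rw [wf_in h1, wf_in (hxy.1 h1)]
  · rw [wf_out h1, wf_out (fun h2 => h1 (hxy.2 h2))]

theorem wf_mul (hΩ : Pruef Ω) {i : ℕ} {g h : Perm Ω} (hg : Lip g)
    (hKg : MinNonFC.K (i + 1) g) (hKh : MinNonFC.K (i + 1) h) :
    wf i (g * h) = wf i g + wf i h := by
  funext x
  have h1 : h x - x ∈ A Ω (i + 1) := hKh x
  have h2 : dsp g (h x) - dsp g x ∈ A Ω i := A_mono (by omega) (hg.diff h1)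
  have e : dsp (g * h) x = (dsp g (h x) - dsp g x) + (dsp g x + dsp h x) := by
    rw [dsp_mul]; abel
  have h3 : dsp (g * h) x ∈ A Ω i ↔ dsp g x + dsp h x ∈ A Ω i := by
    rw [e]; exact AddSubgroup.add_mem_cancel_left _ h2
  rw [Pi.add_apply]
  by_cases hgx : dsp g x ∈ A Ω i
  · by_cases hhx : dsp h x ∈ A Ω i
    · rw [wf_in hgx, wf_in hhx, wf_in (h3.2 (add_mem hgx hhx)), add_zero]
    · rw [wf_in hgx, wf_out hhx, wf_out, zero_add]
      rw [h3]
      intro hcon
      exact hhx ((AddSubgroup.add_mem_cancel_left _ hgx).1 hcon)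
  · by_cases hhx : dsp h x ∈ A Ω i
    · rw [wf_out hgx, wf_in hhx, wf_out, add_zero]
      rw [h3]
      intro hcon
      exact hgx ((AddSubgroup.add_mem_cancel_right _ hhx).1 hcon)
    · rw [wf_out hgx, wf_out hhx, wf_in]
      · rfl
      · rw [h3]
        have h4 := half hΩ (hKg x) (hKh x) hgx hhx
        have h5 := mem_A_succ.1 (hKh x)
        have e2 : dsp g x + dsp h x = (dsp g x - dsp h x) + 2 • dsp h x := by
          rw [two_smul]; abel
        rw [e2]
        exact add_mem h4 h5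

theorem wf_sq {i : ℕ} {g : Perm Ω} (hg : Lip g) (hKg : MinNonFC.K (i + 2) g) :
    wf i (g * g) = wf (i + 1) g := by
  funext x
  apply wf_congr
  have h1 : g x - x ∈ A Ω (i + 2) := hKg x
  have h2 : dsp g (g x) - dsp g x ∈ A Ω i := hg.diff h1
  have e : dsp (g * g) x = (dsp g (g x) - dsp g x) + 2 • dsp g x := by
    rw [dsp_mul, two_smul]; abel
  rw [e, AddSubgroup.add_mem_cancel_left _ h2, mem_A_succ]

theorem wf_conj {i : ℕ} {g c : Perm Ω} (hc : c ∈ W Ω) (x : Ω) :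
    wf i (c * g * c⁻¹) x = wf i g (c⁻¹ x) := by
  apply wf_congr
  have : dsp (c * g * c⁻¹) x = c (g (c⁻¹ x)) - c (c⁻¹ x) := by
    simp only [dsp]
    rw [Perm.mul_apply, Perm.mul_apply, ap_inv]
  rw [this, W.map_iff hc]
  rfl

theorem K_conj {i : ℕ} {g c : Perm Ω} (hc : c ∈ W Ω) (hg : MinNonFC.K i g) :
    MinNonFC.K i (c * g * c⁻¹) := by
  intro x
  have : dsp (c * g * c⁻¹) x = c (g (c⁻¹ x)) - c (c⁻¹ x) := by
    simp only [dsp]
    rw [Perm.mul_apply, Perm.mul_apply, ap_inv]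
  rw [this, W.map_iff hc]
  exact hg _

/-- the difference operator -/
def Nop (τ : Perm Ω) : (Ω → ZMod 2) →+ (Ω → ZMod 2) where
  toFun f := fun x => f (τ⁻¹ x) + f x
  map_zero' := by funext x; simp
  map_add' := by intro f g; funext x; simp only [Pi.add_apply]; ring

theorem Nop_apply (τ : Perm Ω) (f : Ω → ZMod 2) (x : Ω) : Nop τ f x = f (τ⁻¹ x) + f x := rfl

theorem two_z (a : ZMod 2) : a + a = 0 := CharTwo.add_self_eq_zero a

theorem Nop_iter (τ : Perm Ω) : ∀ (k : ℕ) (f : Ω → ZMod 2) (x : Ω),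
    (Nop τ)^[2 ^ k] f x = f ((τ ^ (2 ^ k))⁻¹ x) + f x := by
  intro k
  induction k with
  | zero => intro f x; simp [Nop_apply]
  | succ k ih =>
    intro f x
    rw [pow_succ 2 k, mul_two, Function.iterate_add_apply, ih, ih, ih, pow_add, mul_inv_rev,
      Perm.mul_apply]
    have := two_z (f ((τ ^ 2 ^ k)⁻¹ x))
    calc f ((τ ^ 2 ^ k)⁻¹ ((τ ^ 2 ^ k)⁻¹ x)) + f ((τ ^ 2 ^ k)⁻¹ x) +
          (f ((τ ^ 2 ^ k)⁻¹ x) + f x)
        = f ((τ ^ 2 ^ k)⁻¹ ((τ ^ 2 ^ k)⁻¹ x)) + (f ((τ ^ 2 ^ k)⁻¹ x) + f ((τ ^ 2 ^ k)⁻¹ x))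
          + f x := by ring
      _ = _ := by rw [this, add_zero]

theorem Trans.pow (T : Trans H t) : ∀ k m : ℕ, (t (m + k)) ^ (2 ^ k) = t m := by
  intro k
  induction k with
  | zero => intro m; simp
  | succ k ih =>
    intro m
    rw [pow_succ' 2 k, pow_mul, pow_two, ← Nat.add_assoc, T.sq, ih]

theorem Trans.zero (T : Trans H t) : t 0 = 1 := K_zero.1 (T.K le_rfl)

theorem Nop_nil (T : Trans H t) (n : ℕ) (f : Ω → ZMod 2) : ∃ b, (Nop (t n))^[b] f = 0 := by
  refine ⟨2 ^ n, ?_⟩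
  funext x
  have := T.pow n 0
  rw [Nat.zero_add, T.zero] at this
  rw [Nop_iter, this, inv_one, Perm.one_apply, two_z]; rfl

/-- functions supported on `A n` -/
def F (Ω : Type) [AddCommGroup Ω] (n : ℕ) : AddSubgroup (Ω → ZMod 2) where
  carrier := {f | ∀ x, x ∉ A Ω n → f x = 0}
  zero_mem' := fun _ _ => rfl
  add_mem' := by
    intro a b ha hb x hx
    rw [Pi.add_apply, ha x hx, hb x hx, add_zero]
  neg_mem' := by
    intro a ha x hx
    rw [Pi.neg_apply, ha x hx, neg_zero]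

theorem Nop_F (T : Trans H t) {n : ℕ} {f : Ω → ZMod 2} (hf : f ∈ F Ω n) :
    Nop (t n) f ∈ F Ω n := by
  intro x hx
  rw [Nop_apply, hf x hx, hf, add_zero]
  rwa [(T.K le_rfl).inv.mem_iff]

open Classical in
theorem Nop_ker (hΩ : Pruef Ω) (T : Trans H t) {n : ℕ} (f : Ω → ZMod 2) (hf : f ∈ F Ω n)
    (h0 : Nop (t n) f = 0) : f = 0 ∨ f = fun x => if x ∈ A Ω n then 1 else 0 := by
  have h1 : ∀ x, f (t n x) = f x := by
    intro x
    have := congrFun h0 (t n x)
    rw [Nop_apply, inv_ap, Pi.zero_apply] at this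
    have h2 := two_z (f x)
    calc f (t n x) = (f x + f x) + f (t n x) := by rw [h2, zero_add]
      _ = f x + (f x + f (t n x)) := by ring
      _ = f x := by rw [this, add_zero]
  have h2 : ∀ (k : ℕ) (x : Ω), f ((t n ^ k) x) = f x := by
    intro k
    induction k with
    | zero => intro x; simp
    | succ k ih => intro x; rw [pow_succ, Perm.mul_apply, ih, h1]
  have h3 : ∀ y ∈ A Ω n, f y = f 0 := by
    intro y hy
    obtain ⟨k, hk⟩ := orbit_aux hΩ n (t n) (T.w n).1 0 y (T.lv n 0) (by simpa using hy)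
    rw [← hk, h2]
  have h4 : f 0 = 0 ∨ f 0 = 1 := by
    generalize f 0 = a
    revert a; decide
  rcases h4 with h4 | h4
  · left
    funext x
    by_cases hx : x ∈ A Ω n
    · rw [h3 x hx, h4]; rfl
    · rw [hf x hx]; rfl
  · right
    funext x
    by_cases hx : x ∈ A Ω n
    · rw [h3 x hx, h4, if_pos hx]
    · rw [hf x hx, if_neg hx]

/-- the layers -/
def V (hΩ : Pruef Ω) (hHW : ∀ g ∈ H, g ∈ W Ω) (n i : ℕ) : AddSubgroup (Ω → ZMod 2) where
  carrier := {f | ∃ g ∈ R H n, MinNonFC.K (i + 1) g ∧ wf i g = f}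
  zero_mem' := by
    refine ⟨1, one_mem _, K.mono (Nat.zero_le _) (K_zero.2 rfl), ?_⟩
    funext x
    apply wf_in
    simp only [dsp, Perm.coe_one, id_eq, sub_self]; exact zero_mem _
  add_mem' := by
    rintro a b ⟨g, hg, hKg, rfl⟩ ⟨h, hh, hKh, rfl⟩
    exact ⟨g * h, mul_mem hg hh, hKg.mul hKh, wf_mul hΩ (hHW _ hg.1).1 hKg hKh⟩
  neg_mem' := by
    rintro a ⟨g, hg, hKg, rfl⟩
    refine ⟨g, hg, hKg, ?_⟩
    funext x
    rw [Pi.neg_apply, CharTwo.neg_eq]

theorem mem_V (hΩ : Pruef Ω) (hHW : ∀ g ∈ H, g ∈ W Ω) {n i : ℕ} {f : Ω → ZMod 2} :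
    f ∈ V hΩ hHW n i ↔ ∃ g ∈ R H n, MinNonFC.K (i + 1) g ∧ wf i g = f := Iff.rfl

theorem wf_F {n i : ℕ} {g : Perm Ω} (hg : ∀ x, x ∉ A Ω n → g x = x) : wf i g ∈ F Ω n := by
  intro x hx
  apply wf_in
  simp only [dsp, hg x hx, sub_self]
  exact zero_mem _

theorem V_Nop (hΩ : Pruef Ω) (hHW : ∀ g ∈ H, g ∈ W Ω) (T : Trans H t) {n i : ℕ}
    {f : Ω → ZMod 2} (hf : f ∈ V hΩ hHW n i) : Nop (t n) f ∈ V hΩ hHW n i := by
  obtain ⟨g, hg, hKg, rfl⟩ := hf
  have hc := conj_mem (T.agr (le_refl n)) hg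
  refine ⟨(t n * g * (t n)⁻¹) * g, mul_mem hc hg, (K_conj (T.w n) hKg).mul hKg, ?_⟩
  rw [wf_mul hΩ (hHW _ hc.1).1 (K_conj (T.w n) hKg) hKg]
  funext x
  rw [Pi.add_apply, wf_conj (T.w n), Nop_apply]

theorem V_le (hΩ : Pruef Ω) (hHW : ∀ g ∈ H, g ∈ W Ω) (T : Trans H t) {n m i : ℕ}
    (hn : m + 2 ≤ n) (h1 : C H t n (m + 1) (i + 2)) (h2 : ¬ C H t n m i) :
    V hΩ hHW n i ≤ V hΩ hHW n (i + 1) := by
  classical
  obtain ⟨r, hr, hK⟩ := h1
  set c := trunc n (t (m + 1)) with hc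
  have hKn : MinNonFC.K n (t (m + 1)) := T.K (by omega)
  have hcW : c ∈ W Ω := trunc_W (T.w _) (T.K le_rfl) (by omega)
  have huW : c * r ∈ W Ω := mul_mem hcW (hHW _ hr.1)
  have hagr := T.agr_trunc (show m + 1 ≤ n by omega)
  have hconj := conj_mem hagr.inv hr
  rw [inv_inv, ← hc] at hconj
  have esq : trunc n (t m) = c * c := by rw [hc, trunc_mul hKn hKn, T.sq]
  have husupp : ∀ x, x ∉ A Ω n → (c * r) x = x := by
    intro x hx
    rw [Perm.mul_apply, hr.2 x hx, hc, trunc_not_mem hx]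
  -- first: `wf (i+1) (c*r)` is not in `V i`
  have hnot : wf (i + 1) (c * r) ∉ V hΩ hHW n i := by
    rintro ⟨g, hg, hKg, hgw⟩
    apply h2
    have hKsq : MinNonFC.K (i + 1) (c * r * (c * r)) := K.sq huW.1 hK
    refine ⟨(c⁻¹ * r * c) * r * g⁻¹, mul_mem (mul_mem hconj hr) (inv_mem hg), ?_⟩
    have e : trunc n (t m) * (c⁻¹ * r * c * r * g⁻¹) = (c * r * (c * r)) * g⁻¹ := by
      rw [esq]; group
    rw [e]
    intro x
    rw [← wf_eq_zero_iff]
    have hmul := wf_mul hΩ (mul_mem huW huW).1 hKsq hKg.inv (i := i)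
    have hginv : wf i g⁻¹ = wf i g := by
      have h3 := wf_mul hΩ (hHW _ hg.1).1 hKg hKg.inv (i := i)
      rw [mul_inv_cancel] at h3
      have h4 : wf i (1 : Perm Ω) = 0 := by
        funext y
        apply wf_in
        simp only [dsp, Perm.coe_one, id_eq, sub_self]; exact zero_mem _
      rw [h4] at h3
      funext y
      have h5 := congrFun h3 y
      rw [Pi.zero_apply, Pi.add_apply] at h5
      have h6 := two_z (wf i g y)
      calc wf i g⁻¹ y = (wf i g y + wf i g y) + wf i g⁻¹ y := by rw [h6, zero_add]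
        _ = wf i g y + (wf i g y + wf i g⁻¹ y) := by ring
        _ = wf i g y := by rw [← h5, add_zero]
    rw [hmul, Pi.add_apply, hginv, wf_sq huW.1 hK, ← hgw, two_z]
  -- second: `N (wf (i+1) (c*r))` is in `V (i+1)`
  have hN : Nop (t n) (wf (i + 1) (c * r)) ∈ V hΩ hHW n (i + 1) := by
    have hcn := conj_mem (T.agr (le_refl n)) hr
    have hcomm : t n * c * (t n)⁻¹ = c := by
      have : t n * c = c * t n := by
        ext x
        rw [Perm.mul_apply, Perm.mul_apply]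
        by_cases hx : x ∈ A Ω n
        · rw [hc, trunc_mem hKn hx, trunc_mem hKn ((T.K le_rfl).mem_iff.2 hx),
            ← Perm.mul_apply, ← Perm.mul_apply, T.comm]
        · rw [hc, trunc_not_mem hx, trunc_not_mem]
          rwa [(T.K le_rfl).mem_iff]
      rw [this, mul_assoc, mul_inv_cancel, mul_one]
    have e : (t n * (c * r) * (t n)⁻¹) * (c * r)⁻¹ = c * ((t n * r * (t n)⁻¹) * r⁻¹) * c⁻¹ := by
      have e1 : t n * (c * r) * (t n)⁻¹ = (t n * c * (t n)⁻¹) * (t n * r * (t n)⁻¹) := by group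
      rw [e1, hcomm]; group
    have hmem : (t n * (c * r) * (t n)⁻¹) * (c * r)⁻¹ ∈ R H n := by
      rw [e]
      exact conj_mem hagr (mul_mem hcn (inv_mem hr))
    have hKc : MinNonFC.K (i + 2) (t n * (c * r) * (t n)⁻¹) := K_conj (T.w n) hK
    refine ⟨_, hmem, hKc.mul hK.inv, ?_⟩
    have hcW' : t n * (c * r) * (t n)⁻¹ ∈ W Ω :=
      mul_mem (mul_mem (T.w n) huW) (inv_mem (T.w n))
    rw [wf_mul hΩ hcW'.1 hKc hK.inv]
    have hginv : wf (i + 1) (c * r)⁻¹ = wf (i + 1) (c * r) := by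
      have h3 := wf_mul hΩ huW.1 hK hK.inv (i := i + 1)
      rw [mul_inv_cancel] at h3
      have h4 : wf (i + 1) (1 : Perm Ω) = 0 := by
        funext y
        apply wf_in
        simp only [dsp, Perm.coe_one, id_eq, sub_self]; exact zero_mem _
      rw [h4] at h3
      funext y
      have h5 := congrFun h3 y
      rw [Pi.zero_apply, Pi.add_apply] at h5
      have h6 := two_z (wf (i + 1) (c * r) y)
      calc wf (i + 1) (c * r)⁻¹ y
          = (wf (i + 1) (c * r) y + wf (i + 1) (c * r) y) + wf (i + 1) (c * r)⁻¹ y := by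
            rw [h6, zero_add]
        _ = wf (i + 1) (c * r) y + (wf (i + 1) (c * r) y + wf (i + 1) (c * r)⁻¹ y) := by ring
        _ = wf (i + 1) (c * r) y := by rw [← h5, add_zero]
    rw [hginv]
    funext x
    rw [Pi.add_apply, wf_conj (T.w n), Nop_apply]
  intro v hv
  have hvF : v ∈ F Ω n := by
    obtain ⟨g, hg, _, rfl⟩ := hv
    exact wf_F hg.2
  exact uni (Nop (t n)) (F Ω n) (V hΩ hHW n i) (V hΩ hHW n (i + 1)) _
    (fun f hf => Nop_F T hf) (fun f hf => V_Nop hΩ hHW T hf) (fun f hf => V_Nop hΩ hHW T hf)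
    (Nop_nil T n) (fun f hf h0 => Nop_ker hΩ T f hf h0) hv hvF (wf_F husupp) hnot hN

end main

end Pool.Agent.MinNonFC
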