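import Pool.Agent.MinNonFC.C

set_option autoImplicit false

/-!
No subgroup of `G` is minimal non-FC.
-/

namespace Pool.Agent.MinNonFC

open Equiv

variable {Ω : Type} [AddCommGroup Ω]

theorem exists_K (hΩ : Pruef Ω) {g : Perm Ω} (hg : {x : Ω | g x ≠ x}.Finite) :
    ∃ M, K M g := by
  obtain ⟨M, hM⟩ := exh_finite hΩ (hg.image (dsp g))
  refine ⟨M, fun x => ?_⟩
  by_cases hx : g x = x
  · simp only [dsp, hx, sub_self]; exact zero_mem _
  · exact hM _ ⟨x, hx, rfl⟩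

theorem exists_layer (hΩ : Pruef Ω) {H : Subgroup (Perm Ω)} (hHG : H ≤ G Ω)
    (htr : ∀ x y : Ω, ∃ g ∈ H, g x = y) (i : ℕ) : ∃ g ∈ H, K (i + 1) g ∧ ¬ K i g := by
  have aux : ∀ (k : ℕ) (g : Perm Ω), g ∈ H → K (i + k) g → ¬ K i g →
      ∃ g' ∈ H, K (i + 1) g' ∧ ¬ K i g' := by
    intro k
    induction k with
    | zero => intro g _ h1 h2; exact absurd h1 h2
    | succ k ih =>
      intro g hg h1 h2
      by_cases h3 : K (i + k) g
      · exact ih g hg h3 h2
      · rcases k with _ | k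
        · exact ⟨g, hg, h1, h2⟩
        · have hW : g ∈ W Ω := (hHG hg).1
          have h1' : K (i + k + 2) g := h1
          have h3' : ¬ K (i + k + 1) g := h3
          apply ih (g * g) (mul_mem hg hg)
          · exact K.sq hW.1 h1'
          · intro hcon
            apply h3'
            intro x
            rw [← wf_eq_zero_iff, ← wf_sq hW.1 h1', wf_eq_zero_iff]
            exact A_mono (Nat.le_add_right i k) (hcon x)
  obtain ⟨x, hx, hx'⟩ := exists_mem hΩ i
  obtain ⟨g, hg, hgx⟩ := htr 0 x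
  have hK : ¬ K i g := by
    intro hcon
    apply hx'
    have := hcon 0
    simpa [dsp, hgx] using this
  obtain ⟨M, hM⟩ := exists_K hΩ (G.fin (hHG hg))
  exact aux M g hg (hM.mono (Nat.le_add_left M i)) hK

theorem main_claim (hΩ : Pruef Ω) {H : Subgroup (Perm Ω)} (hHG : H ≤ G Ω)
    (htr : ∀ x y : Ω, ∃ g ∈ H, g x = y) {t : ℕ → Perm Ω} (T : Trans H t) (m0 : ℕ) :
    ∃ n, m0 + 1 ≤ n ∧ trunc n (t m0) ∈ H := by
  classical
  by_contra hno
  push Not at hno
  have hHW : ∀ g ∈ H, g ∈ W Ω := fun g hg => (hHG hg).1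
  let P : ℕ → ℕ → Prop := fun m j => ∃ n, m + 1 ≤ n ∧ C H t n m j
  have Pself : ∀ m, P m m := fun m => ⟨m + 1, le_rfl, C_self T (Nat.le_succ m)⟩
  have Ppred : ∀ m j, P (m + 1) (j + 1) → P m j := by
    rintro m j ⟨n, hn, hC⟩
    exact ⟨n, by omega, C_pred hHW T (by omega) hC⟩
  have Pex : ∀ m, ∃ j, P m j := fun m => ⟨m, Pself m⟩
  have P0 : ∀ k, ¬ P (m0 + k) 0 := by
    intro k
    induction k with
    | zero =>
      rintro ⟨n, hn, hC⟩
      exact hno n hn (C_zero_iff.1 hC)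
    | succ k ih =>
      rintro ⟨n, hn, hC⟩
      apply ih
      exact Ppred _ _ ⟨n, hn, C_mono (Nat.zero_le 1) hC⟩
  let lam : ℕ → ℕ := fun m => Nat.find (Pex m)
  have lam_spec : ∀ m, P m (lam m) := fun m => Nat.find_spec (Pex m)
  have lam_min : ∀ m j, j < lam m → ¬ P m j := fun m j hj => Nat.find_min (Pex m) hj
  have lam_le : ∀ m j, P m j → lam m ≤ j := fun m j hj => Nat.find_min' (Pex m) hj
  have lam_pos : ∀ m, m0 ≤ m → 1 ≤ lam m := by
    intro m hm
    by_contra hcon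
    have h0 : lam m = 0 := by omega
    have h1 := lam_spec m
    rw [h0] at h1
    obtain ⟨k, rfl⟩ := Nat.exists_eq_add_of_le hm
    exact P0 k h1
  have lam_step : ∀ m, m0 ≤ m → lam m + 1 ≤ lam (m + 1) := by
    intro m hm
    have h1 := lam_pos (m + 1) (by omega)
    obtain ⟨j, hj⟩ : ∃ j, lam (m + 1) = j + 1 := ⟨lam (m + 1) - 1, by omega⟩
    have h2 := lam_spec (m + 1)
    rw [hj] at h2
    have := lam_le m j (Ppred m j h2)
    omega
  have lam_self : ∀ m, lam m ≤ m := fun m => lam_le m m (Pself m)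
  -- stabilisation
  have hex : ∃ k, ∃ m, m0 ≤ m ∧ m - lam m = k := ⟨m0 - lam m0, m0, le_rfl, rfl⟩
  obtain ⟨m1, hm1, hk0⟩ := Nat.find_spec hex
  have hstab : ∀ k, lam (m1 + k) = lam m1 + k := by
    intro k
    induction k with
    | zero => rfl
    | succ k ih =>
      have h1 := lam_step (m1 + k) (by omega)
      have h2 : Nat.find hex ≤ (m1 + (k + 1)) - lam (m1 + (k + 1)) :=
        Nat.find_min' hex ⟨m1 + (k + 1), by omega, rfl⟩
      have h3 := lam_self m1
      have h4 := lam_self (m1 + (k + 1))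
      have h5 : lam (m1 + (k + 1)) = lam (m1 + k + 1) := rfl
      omega
  obtain ⟨i1, hi1⟩ : ∃ i, lam m1 = i + 1 := ⟨lam m1 - 1, by have := lam_pos m1 hm1; omega⟩
  have hstep : ∀ k, ∃ N, ∀ n, N ≤ n → V hΩ hHW n (i1 + k) ≤ V hΩ hHW n (i1 + k + 1) := by
    intro k
    obtain ⟨n0, hn0, hC⟩ := lam_spec (m1 + (k + 1))
    rw [hstab, hi1] at hC
    refine ⟨n0, fun n hn => ?_⟩
    apply V_le hΩ hHW T (m := m1 + k) (by omega)
    · have := C_le hΩ T (by omega) hn hC
      have e : i1 + 1 + (k + 1) = i1 + k + 2 := by omega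
      rw [e] at this
      exact this
    · intro hcon
      apply lam_min (m1 + k) (i1 + k)
      · rw [hstab, hi1]; omega
      · exact ⟨n, by omega, hcon⟩
  have hall : ∀ L, ∃ N, ∀ n, N ≤ n → V hΩ hHW n i1 ≤ V hΩ hHW n (i1 + L) := by
    intro L
    induction L with
    | zero => exact ⟨0, fun n _ => le_rfl⟩
    | succ L ih =>
      obtain ⟨N1, hN1⟩ := ih
      obtain ⟨N2, hN2⟩ := hstep L
      exact ⟨max N1 N2, fun n hn => le_trans (hN1 n (le_trans (le_max_left _ _) hn))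
        (hN2 n (le_trans (le_max_right _ _) hn))⟩
  obtain ⟨g0, hg0, hK0, hnK0⟩ := exists_layer hΩ hHG htr i1
  obtain ⟨n0, hn0⟩ := exh_finite hΩ (G.fin (hHG hg0))
  have hsupp : ∀ x, x ∉ A Ω n0 → g0 x = x := by
    intro x hx
    by_contra hcon
    exact hx (hn0 x hcon)
  obtain ⟨N, hN⟩ := hall (n0 + 1)
  have hmem : wf i1 g0 ∈ V hΩ hHW (max N n0) i1 :=
    ⟨g0, R_mono (le_max_right _ _) ⟨hg0, hsupp⟩, hK0, rfl⟩
  obtain ⟨g', hg', hK', hw'⟩ := hN _ (le_max_left _ _) hmem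
  have hx : ∃ x, dsp g0 x ∉ A Ω i1 := by
    by_contra hcon
    push Not at hcon
    exact hnK0 hcon
  obtain ⟨x, hx⟩ := hx
  have hxA : x ∈ A Ω n0 := by
    by_contra hcon
    apply hx
    simp only [dsp, hsupp x hcon, sub_self]
    exact zero_mem _
  obtain ⟨z, hz, hz'⟩ := exists_mem hΩ n0
  have h1 : wf i1 g0 x = 1 := wf_out hx
  have h2 : dsp g' x ∉ A Ω (i1 + (n0 + 1)) := by
    intro hcon
    have := wf_in hcon
    rw [hw', h1] at this
    exact one_ne_zero this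
  have h3 : dsp g' (x + z) - dsp g' x ∈ A Ω (i1 + (n0 + 1)) := by
    have hlip := (hHW _ hg'.1).1
    have e : (x + z) - x ∈ A Ω (n0 + 1) := by
      have : (x + z) - x = z := by abel
      rw [this]; exact hz
    exact A_mono (by omega) (hlip.diff e)
  have h4 : dsp g' (x + z) ∉ A Ω (i1 + (n0 + 1)) := by
    intro hcon
    apply h2
    have e : dsp g' x = dsp g' (x + z) - (dsp g' (x + z) - dsp g' x) := by abel
    rw [e]
    exact sub_mem hcon h3
  have h5 : wf i1 g0 (x + z) = 1 := by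
    rw [← hw']; exact wf_out h4
  have h6 : x + z ∉ A Ω n0 := by
    intro hcon
    apply hz'
    exact (AddSubgroup.add_mem_cancel_left _ hxA).1 hcon
  have h7 : wf i1 g0 (x + z) = 0 := by
    apply wf_in
    simp only [dsp, hsupp _ h6, sub_self]
    exact zero_mem _
  rw [h7] at h5
  exact zero_ne_one h5

/-- FC-subgroups -/
def FC (H : Subgroup (Perm Ω)) : Prop :=
  ∀ a ∈ H, {b : Perm Ω | ∃ c ∈ H, b = c * a * c⁻¹}.Finite

theorem not_FC (hΩ : Pruef Ω) {N : Subgroup (Perm Ω)} (hNG : N ≤ G Ω)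
    (hN : ∀ m, ∃ g ∈ N, g 0 ∉ A Ω m) : ¬ FC N := by
  intro hFC
  obtain ⟨a, ha, ha0⟩ := hN 0
  have hfin := hFC a ha
  have hU : (⋃ b ∈ {b : Perm Ω | ∃ c ∈ N, b = c * a * c⁻¹}, {x : Ω | b x ≠ x}).Finite := by
    apply Set.Finite.biUnion hfin
    rintro b ⟨c, hc, rfl⟩
    exact (hNG (mul_mem (mul_mem hc ha) (inv_mem hc))).2
  obtain ⟨n, hn⟩ := exh_finite hΩ hU
  obtain ⟨c, hc, hc0⟩ := hN n
  apply hc0
  apply hn
  simp only [Set.mem_iUnion]
  refine ⟨c * a * c⁻¹, ⟨c, hc, rfl⟩, ?_⟩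
  show (c * a * c⁻¹) (c 0) ≠ c 0
  rw [Perm.mul_apply, Perm.mul_apply, inv_ap]
  intro hcon
  apply ha0
  rw [mem_A_zero]
  exact c.injective hcon

theorem finite_supported {B : Set Ω} (hB : B.Finite) :
    {b : Perm Ω | ∀ x, x ∉ B → b x = x}.Finite := by
  classical
  have hfin : Finite {x // x ∈ B} := hB
  apply Set.Finite.subset (Set.finite_range (Perm.ofSubtype : Perm {x // x ∈ B} →* Perm Ω))
  intro b hb
  have h1 : ∀ x, b x ∈ B ↔ x ∈ B := by
    intro x
    constructor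
    · intro h
      by_contra hx
      rw [hb x hx] at h
      exact hx h
    · intro h
      by_contra hx
      have h2 := hb _ hx
      have h3 := b.injective h2
      rw [h3] at hx
      exact hx h
  refine ⟨b.subtypePerm h1, ?_⟩
  ext x
  by_cases hx : x ∈ B
  · rw [Perm.ofSubtype_apply_of_mem _ hx]
    rfl
  · rw [Perm.ofSubtype_apply_of_not_mem _ hx, hb x hx]

theorem transitive_of_not_FC (hΩ : Pruef Ω) {H : Subgroup (Perm Ω)} (hHG : H ≤ G Ω)
    (hH : ¬ FC H) : ∀ x y : Ω, ∃ g ∈ H, g x = y := by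
  have h1 : ∃ x0 : Ω, ∀ m, ∃ c ∈ H, c x0 ∉ A Ω m := by
    by_contra hcon
    push Not at hcon
    apply hH
    intro a ha
    choose f hf using hcon
    obtain ⟨M, hM⟩ : ∃ M, ∀ x ∈ {x : Ω | a x ≠ x}, f x ≤ M := by
      obtain ⟨M, hM⟩ := ((G.fin (hHG ha)).image f).bddAbove
      exact ⟨M, fun x hx => hM ⟨x, hx, rfl⟩⟩
    apply Set.Finite.subset (finite_supported (A_finite hΩ M))
    rintro b ⟨c, hc, rfl⟩ x hx
    have h2 : a (c⁻¹ x) = c⁻¹ x := by
      by_contra h3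
      apply hx
      have h4 := hf (c⁻¹ x) c hc
      rw [ap_inv] at h4
      exact A_mono (hM _ h3) h4
    rw [Perm.mul_apply, Perm.mul_apply, h2, ap_inv]
  obtain ⟨x0, hx0⟩ := h1
  have h2 : ∀ y : Ω, ∃ g ∈ H, g x0 = y := by
    intro y
    obtain ⟨m, hm⟩ := exh_finite hΩ (Set.toFinite ({x0, y} : Set Ω))
    have hx0m : x0 ∈ A Ω m := hm x0 (by simp)
    have hym : y ∈ A Ω m := hm y (by simp)
    obtain ⟨c, hc, hcx⟩ := hx0 m
    obtain ⟨m', hm'⟩ := exists_lev hΩ c x0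
    have hmm : m ≤ m' := by
      by_contra hcon
      apply hcx
      have e : c x0 = dsp c x0 + x0 := by simp [dsp]
      rw [e]
      exact add_mem (A_mono (by omega) hm'.1) hx0m
    obtain ⟨k, hk⟩ := orbit_aux hΩ m' c (hHG hc).1.1 x0 y hm' (A_mono hmm (sub_mem hym hx0m))
    exact ⟨c ^ k, pow_mem hc k, hk⟩
  intro x y
  obtain ⟨g1, hg1, hg1x⟩ := h2 x
  obtain ⟨g2, hg2, hg2y⟩ := h2 y
  refine ⟨g2 * g1⁻¹, mul_mem hg2 (inv_mem hg1), ?_⟩
  rw [Perm.mul_apply, ← hg1x, inv_ap, hg2y]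

theorem no_min (hΩ : Pruef Ω) {H : Subgroup (Perm Ω)} (hHG : H ≤ G Ω) (hH : ¬ FC H)
    (hmin : ∀ N : Subgroup (Perm Ω), N < H → FC N) : False := by
  have htr := transitive_of_not_FC hΩ hHG hH
  have hHW : ∀ g ∈ H, g ∈ W Ω := fun g hg => (hHG hg).1
  obtain ⟨t, T⟩ := exists_trans hΩ hHW htr
  have hcent : ∀ c, ∀ g ∈ H, t c * g = g * t c := by
    intro c
    have h1 : ¬ FC (H ⊓ Subgroup.centralizer {t c}) := by
      apply not_FC hΩ (le_trans inf_le_left hHG)
      intro m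
      obtain ⟨n, hn, hmem⟩ := main_claim hΩ hHG htr T (m + 1)
      have h2 : trunc (max n c) (t (m + 1)) ∈ H := by
        rw [← C_zero_iff (t := t)]
        exact C_le hΩ T (by omega) (le_max_left _ _) (C_zero_iff.2 hmem)
      have hK1 : K (max n c) (t (m + 1)) := T.K (le_trans (by omega) (le_max_left n c))
      have hKc : K (max n c) (t c) := T.K (le_max_right n c)
      refine ⟨_, ⟨h2, ?_⟩, ?_⟩
      · show trunc (max n c) (t (m + 1)) ∈ Subgroup.centralizer {t c}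
        rw [Subgroup.mem_centralizer_iff]
        intro g hg
        rw [Set.mem_singleton_iff] at hg
        rw [hg]
        ext x
        rw [Perm.mul_apply, Perm.mul_apply]
        by_cases hx : x ∈ A Ω (max n c)
        · rw [trunc_mem hK1 hx, trunc_mem hK1 (hKc.mem_iff.2 hx), ← Perm.mul_apply,
            ← Perm.mul_apply, T.comm]
        · rw [trunc_not_mem hx, trunc_not_mem]
          rwa [hKc.mem_iff]
      · rw [trunc_mem hK1 (zero_mem _)]
        have := (T.lv (m + 1) 0).2 m (Nat.lt_succ_self m)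
        simpa [dsp] using this
    have h3 : H ⊓ Subgroup.centralizer {t c} = H := by
      by_contra hne
      exact h1 (hmin _ (lt_of_le_of_ne inf_le_left hne))
    intro g hg
    have h4 : g ∈ H ⊓ Subgroup.centralizer {t c} := by rw [h3]; exact hg
    have h5 := (Subgroup.mem_inf.1 h4).2
    rw [Subgroup.mem_centralizer_iff] at h5
    exact h5 _ (Set.mem_singleton _)
  obtain ⟨x, hx, hx'⟩ := exists_mem hΩ 0
  rw [mem_A_zero] at hx'
  obtain ⟨a, ha, hax⟩ := htr 0 x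
  obtain ⟨n, hn⟩ := exh_finite hΩ (G.fin (hHG ha))
  have hz : t (n + 1) 0 ∉ A Ω n := by
    have := (T.lv (n + 1) 0).2 n (Nat.lt_succ_self n)
    simpa [dsp] using this
  have h1 : a (t (n + 1) 0) = t (n + 1) 0 := by
    by_contra hcon
    exact hz (hn _ hcon)
  have h2 := hcent (n + 1) a ha
  have h3 : t (n + 1) (a 0) = t (n + 1) 0 := by
    rw [← Perm.mul_apply, h2, Perm.mul_apply, h1]
  have h4 := (t (n + 1)).injective h3
  rw [hax] at h4
  exact hx' h4

end Pool.Agent.MinNonFC
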