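import Pool.Agent.MinNonFC.D

set_option autoImplicit false

/-!
The group `G` satisfies the hypotheses; a concrete Pruefer 2-group.
-/

namespace Pool.Agent.MinNonFC

open Equiv

section hyp

variable {Ω : Type} [AddCommGroup Ω]

theorem G_pgroup (hΩ : Pruef Ω) {g : Perm Ω} (hg : g ∈ G Ω) : ∃ n : ℕ, g ^ (2 ^ n) = 1 := by
  obtain ⟨M, hM⟩ := exists_K hΩ (G.fin hg)
  refine ⟨M, ?_⟩
  have : ∀ (M : ℕ) (g : Perm Ω), g ∈ W Ω → K M g → g ^ (2 ^ M) = 1 := by
    intro M
    induction M with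
    | zero => intro g _ h; rw [K_zero.1 h]; simp
    | succ M ih =>
      intro g hg h
      rw [pow_succ' 2 M, pow_mul, pow_two]
      exact ih (g * g) (mul_mem hg hg) (K.sq hg.1 h)
  exact this M g hg.1 hM

open Classical in
/-- translation by `a` on the ball of radius `n` around `c` -/
noncomputable def tr (n : ℕ) (c a : Ω) (ha : a ∈ A Ω n) : Perm Ω where
  toFun x := if x - c ∈ A Ω n then x + a else x
  invFun x := if x - c ∈ A Ω n then x - a else x
  left_inv := by
    intro x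
    by_cases hx : x - c ∈ A Ω n
    · have h2 : x + a - c ∈ A Ω n := by
        have e : x + a - c = (x - c) + a := by abel
        rw [e]; exact add_mem hx ha
      simp only [hx, if_true, h2]; abel
    · simp only [hx, if_false]
  right_inv := by
    intro x
    by_cases hx : x - c ∈ A Ω n
    · have h2 : x - a - c ∈ A Ω n := by
        have e : x - a - c = (x - c) - a := by abel
        rw [e]; exact sub_mem hx ha
      simp only [hx, if_true, h2]; abel
    · simp only [hx, if_false]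

theorem tr_in {n : ℕ} {c a : Ω} (ha : a ∈ A Ω n) {x : Ω} (hx : x - c ∈ A Ω n) :
    tr n c a ha x = x + a := if_pos hx

theorem tr_out {n : ℕ} {c a : Ω} (ha : a ∈ A Ω n) {x : Ω} (hx : x - c ∉ A Ω n) :
    tr n c a ha x = x := if_neg hx

theorem tr_inv {n : ℕ} {c a : Ω} (ha : a ∈ A Ω n) :
    (tr n c a ha)⁻¹ = tr n c (-a) (neg_mem ha) := by
  apply inv_eq_of_mul_eq_one_right
  ext x
  rw [Perm.mul_apply, Perm.one_apply]
  by_cases hx : x - c ∈ A Ω n
  · have h2 : x + -a - c ∈ A Ω n := by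
      have e : x + -a - c = (x - c) - a := by abel
      rw [e]; exact sub_mem hx ha
    rw [tr_in _ hx, tr_in _ h2]; abel
  · rw [tr_out _ hx, tr_out _ hx]

theorem tr_lip {m n : ℕ} {c a : Ω} (ha : a ∈ A Ω n) (ham : a ∈ A Ω m) (hmn : m + 1 ≤ n) :
    Lip (tr n c a ha) := by
  intro i x y hxy
  by_cases hx : x - c ∈ A Ω n
  · by_cases hy : y - c ∈ A Ω n
    · have e : dsp (tr n c a ha) x - dsp (tr n c a ha) y = 0 := by
        simp only [dsp, tr_in ha hx, tr_in ha hy]; abel
      rw [e]; exact zero_mem _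
    · have hni : n ≤ i + 1 := by
        by_contra hcon
        apply hy
        have e : y - c = (x - c) - (x - y) := by abel
        rw [e]
        exact sub_mem hx (A_mono (by omega) hxy)
      have e : dsp (tr n c a ha) x - dsp (tr n c a ha) y = a := by
        simp only [dsp, tr_in ha hx, tr_out ha hy]; abel
      rw [e]
      exact A_mono (by omega) ham
  · by_cases hy : y - c ∈ A Ω n
    · have hni : n ≤ i + 1 := by
        by_contra hcon
        apply hx
        have e : x - c = (y - c) + (x - y) := by abel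
        rw [e]
        exact add_mem hy (A_mono (by omega) hxy)
      have e : dsp (tr n c a ha) x - dsp (tr n c a ha) y = -a := by
        simp only [dsp, tr_in ha hy, tr_out ha hx]; abel
      rw [e]
      exact neg_mem (A_mono (by omega) ham)
    · have e : dsp (tr n c a ha) x - dsp (tr n c a ha) y = 0 := by
        simp only [dsp, tr_out ha hy, tr_out ha hx]; abel
      rw [e]
      exact zero_mem _

theorem tr_G (hΩ : Pruef Ω) {m n : ℕ} {c a : Ω} (ha : a ∈ A Ω n) (ham : a ∈ A Ω m)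
    (hmn : m + 1 ≤ n) : tr n c a ha ∈ G Ω := by
  refine ⟨⟨tr_lip ha ham hmn, ?_⟩, ?_⟩
  · rw [tr_inv]
    exact tr_lip _ (neg_mem ham) hmn
  · apply Set.Finite.subset ((A_finite hΩ n).image (fun y => y + c))
    intro x hx
    have h1 : x - c ∈ A Ω n := by
      by_contra hcon
      exact hx (tr_out ha hcon)
    exact ⟨x - c, h1, by simp⟩

theorem G_trans (hΩ : Pruef Ω) (x y : Ω) : ∃ g ∈ G Ω, g x = y := by
  obtain ⟨m, hm⟩ := exh hΩ (y - x)
  have hm' : y - x ∈ A Ω (m + 1) := A_mono (Nat.le_succ m) hm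
  refine ⟨tr (m + 1) x (y - x) hm', tr_G hΩ hm' hm le_rfl, ?_⟩
  rw [tr_in]
  · abel
  · rw [sub_self]; exact zero_mem _

theorem ball_block {h : Perm Ω} (hh : h ∈ G Ω) (x : Ω) (m : ℕ) :
    (⇑h '' {y | y - x ∈ A Ω m} = {y | y - x ∈ A Ω m} ∨
      Disjoint (⇑h '' {y | y - x ∈ A Ω m}) {y | y - x ∈ A Ω m}) := by
  by_cases hd : h x - x ∈ A Ω m
  · left
    ext z
    constructor
    · rintro ⟨y, hy, rfl⟩
      have e : h y - x = (h y - h x) + (h x - x) := by abel
      show h y - x ∈ A Ω m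
      rw [e]
      exact add_mem (hh.1.1.map hy) hd
    · intro hz
      refine ⟨h⁻¹ z, ?_, ap_inv h z⟩
      show h⁻¹ z - x ∈ A Ω m
      rw [← W.map_iff hh.1, ap_inv]
      have e : z - h x = (z - x) - (h x - x) := by abel
      rw [e]
      exact sub_mem hz hd
  · right
    rw [Set.disjoint_left]
    rintro z ⟨y, hy, rfl⟩ hz
    apply hd
    have e : h x - x = (h y - x) - (h y - h x) := by abel
    rw [e]
    exact sub_mem hz (hh.1.1.map hy)

theorem G_blocks (hΩ : Pruef Ω) (S : Set Ω) (hS : S.Finite) : ∃ B : Set Ω, S ⊆ B ∧ B.Finite ∧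
    ∀ h ∈ G Ω, (⇑h '' B = B ∨ Disjoint (⇑h '' B) B) := by
  obtain ⟨n, hn⟩ := exh_finite hΩ hS
  refine ⟨{y | y - 0 ∈ A Ω n}, ?_, ?_, ?_⟩
  · intro x hx
    show x - 0 ∈ A Ω n
    rw [sub_zero]; exact hn x hx
  · apply Set.Finite.subset (A_finite hΩ n)
    intro x hx
    have : x - 0 ∈ A Ω n := hx
    rw [sub_zero] at this
    exact this
  · intro h hh
    exact ball_block hh 0 n

theorem G_cyc (hΩ : Pruef Ω) (g : Perm Ω) (hg : g ∈ G Ω) (x : Ω) (h : Perm Ω) (hh : h ∈ G Ω) :
    (⇑h '' Set.range (fun n : ℤ => (g ^ n) x) = Set.range (fun n : ℤ => (g ^ n) x) ∨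
      Disjoint (⇑h '' Set.range (fun n : ℤ => (g ^ n) x))
        (Set.range (fun n : ℤ => (g ^ n) x))) := by
  obtain ⟨m, hm⟩ := exists_lev hΩ g x
  rw [range_orbit hΩ hg.1 hm]
  exact ball_block hh x m

end hyp

section concrete

/-- the Pruefer 2-group -/
def P2 : AddSubgroup (AddCircle (1 : ℚ)) where
  carrier := {x | ∃ n : ℕ, 2 ^ n • x = 0}
  zero_mem' := ⟨0, by simp⟩
  add_mem' := by
    rintro a b ⟨n, hn⟩ ⟨m, hm⟩
    refine ⟨n + m, ?_⟩
    rw [smul_add, pow_add, mul_smul, mul_smul, hm, smul_zero, add_zero, smul_comm, hn, smul_zero]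
  neg_mem' := by
    rintro a ⟨n, hn⟩
    exact ⟨n, by rw [smul_neg, hn, neg_zero]⟩

theorem two_circle (x : AddCircle (1 : ℚ)) (hx : 2 • x = 0) (hx0 : x ≠ 0) :
    x = ((1 / 2 : ℚ) : AddCircle (1 : ℚ)) := by
  have hp : Fact (0 < (1 : ℚ)) := ⟨one_pos⟩
  obtain ⟨b, hb, rfl⟩ := AddCircle.eq_coe_Ico x
  rw [← AddCircle.coe_nsmul, AddCircle.coe_eq_zero_iff] at hx
  obtain ⟨n, hn⟩ := hx
  have hn' : (n : ℚ) = 2 * b := by
    simpa [two_smul, two_mul] using hn
  have h1 : (0 : ℚ) ≤ n := by rw [hn']; have := hb.1; linarith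
  have h2 : (n : ℚ) < 2 := by rw [hn']; have := hb.2; linarith
  have h3 : 0 ≤ n := by exact_mod_cast h1
  have h4 : n < 2 := by exact_mod_cast h2
  have h5 : n = 0 ∨ n = 1 := by omega
  rcases h5 with rfl | rfl
  · exfalso
    apply hx0
    have : b = 0 := by
      have : (0 : ℚ) = 2 * b := by simpa using hn'
      linarith
    rw [this]; rfl
  · congr 1
    have : (1 : ℚ) = 2 * b := by simpa using hn'
    linarith

theorem P2_pruef : Pruef P2 where
  tors := by
    rintro ⟨x, n, hn⟩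
    exact ⟨n, Subtype.ext hn⟩
  two := by
    rintro ⟨x, hx⟩ ⟨y, hy⟩ h1 h2 h3 h4
    apply Subtype.ext
    have h1' : 2 • x = 0 := congrArg Subtype.val h1
    have h2' : 2 • y = 0 := congrArg Subtype.val h2
    have h3' : x ≠ 0 := fun h => h3 (Subtype.ext h)
    have h4' : y ≠ 0 := fun h => h4 (Subtype.ext h)
    show x = y
    rw [two_circle x h1' h3', two_circle y h2' h4']
  dv := by
    rintro ⟨x, n, hn⟩
    obtain ⟨q, rfl⟩ := QuotientAddGroup.mk_surjective x
    have e : 2 • ((q / 2 : ℚ) : AddCircle (1 : ℚ)) = (q : AddCircle (1 : ℚ)) := by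
      rw [← AddCircle.coe_nsmul]
      congr 1
      rw [two_smul]; ring
    refine ⟨⟨((q / 2 : ℚ) : AddCircle (1 : ℚ)), n + 1, ?_⟩, Subtype.ext e⟩
    rw [pow_succ, mul_smul, e]
    exact hn
  nt := by
    refine ⟨⟨((1 / 2 : ℚ) : AddCircle (1 : ℚ)), 1, ?_⟩, ?_, ?_⟩
    · rw [pow_one, ← AddCircle.coe_nsmul, AddCircle.coe_eq_zero_iff]
      exact ⟨1, by norm_num⟩
    · intro h
      have h1 : ((1 / 2 : ℚ) : AddCircle (1 : ℚ)) = 0 := congrArg Subtype.val h
      rw [AddCircle.coe_eq_zero_iff] at h1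
      obtain ⟨n, hn⟩ := h1
      have hn' : (n : ℚ) = 1 / 2 := by simpa using hn
      have h2 : (2 * n : ℚ) = 1 := by rw [hn']; norm_num
      have h3 : (2 * n : ℤ) = 1 := by exact_mod_cast h2
      omega
    · apply Subtype.ext
      show 2 • ((1 / 2 : ℚ) : AddCircle (1 : ℚ)) = 0
      rw [← AddCircle.coe_nsmul, AddCircle.coe_eq_zero_iff]
      exact ⟨1, by norm_num⟩

theorem P2_infinite : Infinite P2 := by
  by_contra hcon
  rw [not_infinite_iff_finite] at hcon
  obtain ⟨n, hn⟩ := exh_finite P2_pruef (Set.toFinite (Set.univ : Set P2))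
  obtain ⟨x, _, hx⟩ := exists_mem P2_pruef n
  exact hx (hn x (Set.mem_univ _))

end concrete

end Pool.Agent.MinNonFC
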